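import Pool.Agent.Q57.TP.Kod
import Pool.Agent.Y169.TH.Mak

/-!
The main theorem for pairs (following `Pool.Agent.Y169.TH.Mak`).
-/

set_option autoImplicit false
set_option linter.overlappingInstances false
set_option linter.unusedSectionVars false
set_option maxHeartbeats 400000

open FF MvPolynomial Pool.Agent.W603.LV Pool.Agent.W602.GT Pool.Agent.W602.Cov
open Pool.Agent.TH122.AB Pool.Agent.Y169.CH Pool.Agent.Y169.TH Pool.Agent.W619.PQ

namespace Pool.Agent.Q57.TP

section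

variable {n : ℕ} {K : Type} [Field K] [Algebra ℂ K]

/-- the minimal order of the coordinates -/
noncomputable def minO (x : Fin (n + 1) → K) (P : Place ℂ K) : ℤ :=
  Finset.univ.inf' Finset.univ_nonempty fun j => P.ord (x j)

theorem minO_le (x : Fin (n + 1) → K) (P : Place ℂ K) (j : Fin (n + 1)) :
    minO x P ≤ P.ord (x j) := Finset.inf'_le _ (Finset.mem_univ j)

/-- the multiplicities of the hypersurfaces -/
noncomputable def mul (F : Fin (n + 1) → MvPolynomial (Fin (n + 1)) ℂ) (dF : Fin (n + 1) → ℕ)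
    (x : Fin (n + 1) → K) (P : Place ℂ K) (k : Fin (n + 1)) : ℕ :=
  (P.ord (aeval x (F k)) - dF k * minO x P).toNat

theorem ge_const (P : Place ℂ K) (q : ℂ) : Ge P 0 (algebraMap ℂ K q) := by
  have h := P.reg_const q
  exact h

end

variable {d R : ℕ} {K : Type} [Field K] [Algebra ℂ K]

/-- **The cover.** -/
theorem exists_cv_d {x : Fin (d + 2) → K} (hx0 : x 0 ≠ 0)
    (hbas : IsTranscendenceBasis ℂ fun b : Fin (d + 1) => x b.succ / x 0)
    {F : Fin (d + 2) → MvPolynomial (Fin (d + 2)) ℂ} {dF : Fin (d + 2) → ℕ} (hd : ∀ k, 0 < dF k)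
    (hh : ∀ k, (F k).IsHomogeneous (dF k)) (hS : Snc F) {z : Fin R → K} {M : Fin R → ℕ}
    (hM : ∀ j, 0 < M j) {a : Fin R → Fin (d + 2) → ℕ}
    (hz : ∀ j, z j ^ M j = ∏ k, (aeval x (F k) / x 0 ^ dF k) ^ a j k)
    (hdiv : ∀ j, M j ∣ ∑ k, a j k * dF k)
    (hgen : IntermediateField.adjoin ℂ
      (Set.range (fun b : Fin (d + 1) => x b.succ / x 0) ∪ Set.range z) = ⊤) :
    ∃ Φ : Arr (d + 1), Φ.dF = dF ∧ ∃ C : Cv Φ K R, C.M = M ∧ C.a = a ∧
      ∀ P α v, Dat P Φ.F Φ.dF C.x α v → v = mul F dF x P := by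
  classical
  obtain ⟨q, hq, hqc⟩ := exists_sh2 hh (snc_ne hS)
  obtain ⟨x', hx'⟩ : ∃ x' : Fin (d + 2) → K, x' = shx q x := ⟨_, rfl⟩
  obtain ⟨F', hF'⟩ : ∃ F' : Fin (d + 2) → MvPolynomial (Fin (d + 2)) ℂ,
    F' = fun k => shF q 1 (F k) := ⟨_, rfl⟩
  have hxx' : ∀ j, x j = x' j + algebraMap ℂ K (q j) * x' (Fin.last (d + 1)) := by
    intro j
    rw [hx', shx_last hq]
    unfold shx
    ring
  have hev : ∀ k, aeval x' (F' k) = aeval x (F k) := fun k => by
    rw [hx', hF']
    have h1 := aeval_shF hq x 1 (F k)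
    rwa [map_one, one_mul] at h1
  have hx'0 : x' 0 ≠ 0 := by
    intro h0
    rw [hx'] at h0
    have h1 : aeval (fun b : Fin (d + 1) => x b.succ / x 0) (1 - C (q 0) * X (Fin.last d)) = 0 := by
      rw [map_sub, map_one, map_mul, aeval_C, aeval_X]
      have h3 : x 0 - algebraMap ℂ K (q 0) * x (Fin.last (d + 1)) = 0 := h0
      have h4 : (Fin.last d).succ = Fin.last (d + 1) := rfl
      rw [h4]
      field_simp
      linear_combination h3
    have h2 := (injective_iff_map_eq_zero _).1 hbas.1 _ h1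
    have h3 := congrArg (eval (0 : Fin (d + 1) → ℂ)) h2
    simp at h3
  obtain ⟨ρ, hρ⟩ : ∃ ρ : K, ρ = x 0 / x' 0 := ⟨_, rfl⟩
  have hρ0 : ρ ≠ 0 := by
    rw [hρ]
    exact div_ne_zero hx0 hx'0
  have hkey : ∀ L : IntermediateField ℂ K, (∀ b : Fin (d + 1), x' b.succ / x' 0 ∈ L) → ∀ j,
      x j / x' 0 ∈ L := by
    intro L hL j
    have h1 : ∀ j, x' j / x' 0 ∈ L := by
      intro j
      refine Fin.cases ?_ (fun l => hL l) j
      rw [div_self hx'0]
      exact L.one_mem
    have h2 : x j / x' 0 = x' j / x' 0 +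
        algebraMap ℂ K (q j) * (x' (Fin.last (d + 1)) / x' 0) := by
      rw [hxx' j]
      ring
    rw [h2]
    exact L.add_mem (h1 j) (L.mul_mem (L.algebraMap_mem _) (h1 _))
  have hkey2 : ∀ L : IntermediateField ℂ K, (∀ b : Fin (d + 1), x' b.succ / x' 0 ∈ L) →
      ∀ b : Fin (d + 1), x b.succ / x 0 ∈ L := by
    intro L hL b
    have h1 : x b.succ / x 0 = (x b.succ / x' 0) / (x 0 / x' 0) :=
      (div_div_div_cancel_right₀ hx'0 _ _).symm
    rw [h1]
    exact L.div_mem (hkey L hL _) (hkey L hL _)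
  obtain ⟨X, hX⟩ : ∃ X : Fin (d + 2) → K, X = fun j => x' j / x' 0 := ⟨_, rfl⟩
  have hX0 : X 0 = 1 := by
    rw [hX]
    exact div_self hx'0
  have hXs : ∀ b : Fin (d + 1), X b.succ = x' b.succ / x' 0 := fun b => by rw [hX]
  have hbas' : IsTranscendenceBasis ℂ fun b : Fin (d + 1) => X b.succ := by
    refine basis_of_le hbas ?_
    rw [IntermediateField.adjoin_le_iff]
    rintro _ ⟨b, rfl⟩
    refine hkey2 _ (fun b' => ?_) b
    rw [← hXs]
    exact IntermediateField.subset_adjoin ℂ _ ⟨b', rfl⟩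
  have hFX : ∀ k, aeval X (F' k) = aeval x (F k) / x' 0 ^ dF k := by
    intro k
    have h1 : (F' k).IsHomogeneous (dF k) := by
      rw [hF']
      exact shF_hom _ _ (hh k)
    rw [eq_div_iff (pow_ne_zero _ hx'0), mul_comm, ← aeval_smul_form h1, ← hev]
    congr 2
    funext l
    rw [hX, mul_div_cancel₀ _ hx'0]
  obtain ⟨s, hs⟩ : ∃ s : Fin R → ℕ, s = fun j => (∑ k, a j k * dF k) / M j := ⟨_, rfl⟩
  have hsM : ∀ j, s j * M j = ∑ k, a j k * dF k := fun j => by
    rw [hs]
    exact Nat.div_mul_cancel (hdiv j)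
  let Φ : Arr (d + 1) :=
    { F := F'
      dF := dF
      hd := hd
      hh := fun k => by
        rw [hF']
        exact shF_hom _ _ (hh k)
      hS := by
        rw [hF']
        exact snc_sh hq hS
      hI := fun k => ⟨Finsupp.single (Fin.last (d + 1)) (dF k), by
        rw [mem_support_iff, hF']
        exact hqc k, by
        rw [Finsupp.single_apply, if_neg]
        exact (Fin.succ_ne_zero (Fin.last d))⟩ }
  refine ⟨Φ, rfl, ⟨X, hX0, hbas', fun j => z j * ρ ^ s j, M, hM, a, fun j => ?_, hdiv, ?_⟩, rfl, rfl,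
    ?_⟩
  · change (z j * ρ ^ s j) ^ M j = ∏ k, aeval X (F' k) ^ a j k
    rw [mul_pow, hz, ← pow_mul, hsM, ← Finset.prod_pow_eq_pow_sum, ← Finset.prod_mul_distrib]
    refine Finset.prod_congr rfl fun k _ => ?_
    rw [hFX, mul_comm (a j k), pow_mul ρ, ← mul_pow, hρ]
    congr 1
    rw [div_pow]
    field_simp
  · rw [eq_top_iff, ← hgen, IntermediateField.adjoin_le_iff]
    obtain ⟨L, hL⟩ : ∃ L, L = IntermediateField.adjoin ℂ
      (Set.range (fun b : Fin (d + 1) => X b.succ) ∪ Set.range fun j => z j * ρ ^ s j) := ⟨_, rfl⟩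
    rw [← hL]
    have hu : ∀ b : Fin (d + 1), x' b.succ / x' 0 ∈ L := fun b => by
      rw [hL, ← hXs]
      exact IntermediateField.subset_adjoin ℂ _ (Or.inl ⟨b, rfl⟩)
    rintro _ (⟨b, rfl⟩ | ⟨j, rfl⟩)
    · exact hkey2 L hu b
    · have h1 : z j * ρ ^ s j ∈ L := by
        rw [hL]
        exact IntermediateField.subset_adjoin ℂ _ (Or.inr ⟨j, rfl⟩)
      have h2 : ρ ^ s j ∈ L := by
        have h3 : ρ ∈ L := by
          rw [hρ]
          exact hkey L hu 0
        exact pow_mem h3 _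
      have h3 := L.div_mem h1 h2
      rwa [mul_div_cancel_right₀ _ (pow_ne_zero _ hρ0)] at h3
  · intro P α v hdat
    obtain ⟨hdx, ha1, ⟨j0, hj0⟩, hdF, hdv⟩ := hdat
    have hxne : ∀ j, x j ≠ 0 := by
      intro j
      refine Fin.cases hx0 (fun b => ?_) j
      intro h0
      have h1 := hbas.1.ne_zero b
      rw [h0, zero_div] at h1
      exact h1 rfl
    have hx'ne : ∀ j, x' j ≠ 0 := by
      intro j h0
      apply hdx j
      change X j = 0
      rw [hX]
      dsimp only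
      rw [h0, zero_div]
    have hmin : minO x P = minO x' P := by
      have hx'x : ∀ j, x' j = x j - algebraMap ℂ K (q j) * x (Fin.last (d + 1)) := by
        intro j
        have h1 := hxx' (Fin.last (d + 1))
        rw [hq, map_zero, zero_mul, add_zero] at h1
        rw [hxx' j, h1]
        ring
      apply le_antisymm
      · refine Finset.le_inf' _ _ fun j _ => ?_
        have h1 : Ge P (minO x P) (x' j) := by
          rw [hx'x j]
          refine Ge.sub (Or.inr (minO_le x P j)) ?_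
          have h2 := (ge_const P (q j)).mul (Or.inr (minO_le x P (Fin.last (d + 1))) :
            Ge P (minO x P) (x (Fin.last (d + 1))))
          simpa using h2
        exact h1.resolve_left (hx'ne j)
      · refine Finset.le_inf' _ _ fun j _ => ?_
        have h1 : Ge P (minO x' P) (x j) := by
          rw [hxx' j]
          refine Ge.add (Or.inr (minO_le x' P j)) ?_
          have h2 := (ge_const P (q j)).mul (Or.inr (minO_le x' P (Fin.last (d + 1))) :
            Ge P (minO x' P) (x' (Fin.last (d + 1))))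
          simpa using h2
        exact h1.resolve_left (hxne j)
    have hXo : ∀ l, P.ord (X l) = P.ord (x' l) - P.ord (x' 0) := by
      intro l
      rw [hX]
      dsimp only
      rw [P.ord_div (hx'ne l) hx'0]
    have hα : α = minO x' P - P.ord (x' 0) := by
      apply le_antisymm
      · obtain ⟨l, -, hl⟩ := Finset.exists_mem_eq_inf' (Finset.univ_nonempty (α := Fin (d + 2)))
          fun j => P.ord (x' j)
        have h1 := ha1 l
        change α ≤ P.ord (X l) at h1
        rw [hXo] at h1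
        unfold minO
        rw [hl]
        exact h1
      · rw [← hj0]
        change minO x' P - P.ord (x' 0) ≤ P.ord (X j0)
        rw [hXo]
        have := minO_le x' P j0
        linarith
    funext k
    have h1 := hdv k
    change P.ord (aeval X (F' k)) = dF k * α + v k at h1
    rw [hFX, P.ord_div (by
      rw [← hev]
      intro h0
      apply hdF k
      change aeval X (F' k) = 0
      rw [hFX, ← hev, h0, zero_div]) (pow_ne_zero _ hx'0), P.ord_pow] at h1
    unfold mul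
    rw [hmin]
    have h2 : P.ord (aeval x (F k)) - dF k * minO x' P = v k := by
      rw [hα] at h1
      linarith
    rw [h2, Int.toNat_natCast]

/-- **The main theorem.** -/
theorem main_d {x : Fin (d + 2) → K} (hx0 : x 0 ≠ 0)
    (hbas : IsTranscendenceBasis ℂ fun b : Fin (d + 1) => x b.succ / x 0)
    {F : Fin (d + 2) → MvPolynomial (Fin (d + 2)) ℂ} {dF : Fin (d + 2) → ℕ} (hd : ∀ k, 0 < dF k)
    (hh : ∀ k, (F k).IsHomogeneous (dF k)) (hS : Snc F) {z : Fin R → K} {M : Fin R → ℕ}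
    (hM : ∀ j, 0 < M j) {a : Fin R → Fin (d + 2) → ℕ}
    (hz : ∀ j, z j ^ M j = ∏ k, (aeval x (F k) / x 0 ^ dF k) ^ a j k)
    (hdiv : ∀ j, M j ∣ ∑ k, a j k * dF k)
    (hgen : IntermediateField.adjoin ℂ
      (Set.range (fun b : Fin (d + 1) => x b.succ / x 0) ∪ Set.range z) = ⊤)
    {c : (Fin (d + 2) → ℕ) → ℚ} (hc0 : c 0 = 0) (hc1 : ∀ v, c v ≤ 1)
    (hmul : ∀ v (r : ℕ), 1 ≤ r → Pool.Agent.Y169.TH.Adm M a v → 1 - c (r • v) ≤ r * (1 - c v))
    (hfg : FG M a c) {δ : Place ℂ K → ℚ} (hδ : ∀ P, δ P = c (mul F dF x P)) :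
    (BPsef (d + 1) δ ↔ (PiC M a dF c).Nonempty) ∧
    (BKod (d + 1) δ 0 ↔ (PiC M a dF c).Nonempty) ∧
    ((PiC M a dF c).Nonempty →
      BKod (d + 1) δ (Module.finrank ℚ (vectorSpan ℚ (PiC M a dF c))) ∧
      BNum (d + 1) δ (Module.finrank ℚ (vectorSpan ℚ (PiC M a dF c)))) := by
  classical
  obtain ⟨Φ, rfl, C, rfl, rfl, hvv⟩ := exists_cv_d hx0 hbas hd hh hS hM hz hdiv hgen
  have hcf : Coef C c δ := ⟨hc0, hc1, fun P α v h => by rw [hδ, hvv P α v h]⟩
  have h1 : BPsef (d + 1) δ → (PiC C.M C.a Φ.dF c).Nonempty := by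
    rintro ⟨S, hpsef⟩
    by_contra hcon
    rw [Set.not_nonempty_iff_eq_empty] at hcon
    obtain ⟨M0, hM0⟩ := not_psef_d C hcf hmul hfg hcon S
    obtain ⟨j, hj, ω, hω0, hω⟩ := hpsef M0
    exact hω0 (hM0 j hj ω (bsec_sec hω))
  have h2 : (PiC C.M C.a Φ.dF c).Nonempty →
      BKod (d + 1) δ (Module.finrank ℚ (vectorSpan ℚ (PiC C.M C.a Φ.dF c))) := fun hne =>
    kod_ge_d C hcf hfg hne rfl
  have h3 : ∀ h, BKod (d + 1) δ h → BKod (d + 1) δ 0 := by
    rintro h ⟨m, hm, ω, hω, D, hD, -⟩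
    refine ⟨m, hm, fun _ => ω 0, fun _ => hω 0, D, hD, ?_⟩
    exact algebraicIndependent_empty_type
  refine ⟨⟨h1, fun hne => bpsef_of_kod (h2 hne)⟩, ⟨fun hk => h1 (bpsef_of_kod hk), fun hne =>
    h3 _ (h2 hne)⟩, fun hne => ⟨h2 hne, fun S => ?_⟩⟩
  obtain ⟨C1, hC1⟩ := num_le_d C hcf hmul hfg hne S
  exact ⟨C1, fun m N hm ⟨ω, hlin, hω⟩ => hC1 m N hm ω hlin fun l => bsec_one (hω l)⟩

end Pool.Agent.Q57.TP
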