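import Pool.Agent.Q57.TP.Cnt
import Pool.Agent.Y169.TH.Kod

/-!
The Kodaira dimension of a pair: sections from the points of the polyhedron
(following `Pool.Agent.Y169.TH.Kod`).
-/

set_option autoImplicit false
set_option linter.overlappingInstances false
set_option linter.unusedSectionVars false
set_option maxHeartbeats 1000000

open FF MvPolynomial Pool.Agent.W603.LV Pool.Agent.W602.GT Pool.Agent.W602.Cov
open Pool.Agent.W602.Cov.G Pool.Agent.TH152.AC Pool.Agent.TH122.AB Pool.Agent.Y169.CH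
open Pool.Agent.Y169.TH Pool.Agent.Y169.TH.Cv

namespace Pool.Agent.Q57.TP

section defs

variable {N : ℕ} {K : Type} [Field K] [Algebra ℂ K]

/-- a section of `m (K + Δ) + j A` -/
def BSec (N : ℕ) (δ : Place ℂ K → ℚ) (S : Finset K) (m j : ℕ)
    (ω : (Fin N → Derivation ℂ K K) → K) : Prop :=
  IsPluri m ω ∧ ∀ P : Place ℂ K, Divisorial N P → ∀ D : Fin N → Derivation ℂ K K,
    (∀ c, DerReg P (D c)) → ω D = 0 ∨ ∃ s ∈ S, s ≠ 0 ∧
      (j : ℚ) * P.ord s - m * δ P ≤ P.ord (ω D)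

/-- `κ ≥ h` -/
def BKod (N : ℕ) (δ : Place ℂ K → ℚ) (h : ℕ) : Prop :=
  ∃ m : ℕ, 0 < m ∧ ∃ ω : Fin (h + 1) → (Fin N → Derivation ℂ K K) → K,
    (∀ b, BSec N δ {1} m 1 (ω b)) ∧
    ∃ D, ω 0 D ≠ 0 ∧ AlgebraicIndependent ℂ (fun b : Fin h => ω b.succ D / ω 0 D)

/-- `ν ≤ h` -/
def BNum (N : ℕ) (δ : Place ℂ K → ℚ) (h : ℕ) : Prop :=
  ∀ S : Finset K, ∃ C : ℕ, ∀ m M : ℕ, 1 ≤ m →
    (∃ ω : Fin M → (Fin N → Derivation ℂ K K) → K, LinearIndependent ℂ ω ∧
      ∀ l, BSec N δ S m 1 (ω l)) → M ≤ C * m ^ h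

/-- pseudo-effective -/
def BPsef (N : ℕ) (δ : Place ℂ K → ℚ) : Prop :=
  ∃ S : Finset K, ∀ M : ℕ, ∃ j : ℕ, 1 ≤ j ∧ ∃ ω : (Fin N → Derivation ℂ K K) → K, ω ≠ 0 ∧
    BSec N δ S (j * M) j ω

theorem bsec_sec {δ : Place ℂ K → ℚ} {S : Finset K} {m j : ℕ}
    {ω : (Fin N → Derivation ℂ K K) → K} (h : BSec N δ S m j ω) : SecD N δ (pw S j) m ω := by
  refine ⟨h.1, fun P _ hP D hD => ?_⟩
  refine (h.2 P hP D hD).imp id ?_
  rintro ⟨s, hs, hs0, hle⟩
  refine ⟨s ^ j, mem_pw.2 ⟨s, hs, rfl⟩, pow_ne_zero _ hs0, ?_⟩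
  rw [P.ord_pow]
  have h1 : (((j : ℚ) * P.ord s - m * δ P : ℚ) : ℝ) ≤ (((P.ord (ω D) : ℤ) : ℚ) : ℝ) := by
    exact_mod_cast hle
  push_cast at h1 ⊢
  exact h1

theorem bsec_one {δ : Place ℂ K → ℚ} {S : Finset K} {m : ℕ}
    {ω : (Fin N → Derivation ℂ K K) → K} (h : BSec N δ S m 1 ω) : SecD N δ S m ω := by
  have h1 := bsec_sec h
  rwa [Pool.Agent.Y169.CH.Cvr.pw_one] at h1

theorem bpsef_of_kod {δ : Place ℂ K → ℚ} {h : ℕ} (hk : BKod N δ h) : BPsef N δ := by
  classical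
  obtain ⟨m, hm, ω, hω, D, hD, -⟩ := hk
  refine ⟨{1}, fun M => ⟨m, hm, fun D => ω 0 D ^ M, ?_, ?_, ?_⟩⟩
  · intro h0
    exact pow_ne_zero M hD (congrFun h0 D)
  · intro A D
    have h1 := (hω 0).1 A D
    dsimp only
    rw [h1, mul_pow, ← pow_mul]
  · intro P hP D hD
    by_cases h0 : ω 0 D = 0
    · by_cases hM : M = 0
      · right
        refine ⟨1, by simp, one_ne_zero, ?_⟩
        dsimp only
        rw [hM, pow_zero, P.ord_one]
        simp
      · left
        dsimp only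
        rw [h0, zero_pow hM]
    · right
      obtain ⟨s, hs, -, hle⟩ := ((hω 0).2 P hP D hD).resolve_left h0
      rw [Finset.mem_singleton] at hs
      subst hs
      refine ⟨1, by simp, one_ne_zero, ?_⟩
      dsimp only
      rw [P.ord_pow, P.ord_one]
      rw [P.ord_one] at hle
      push_cast at hle ⊢
      have h1 := mul_le_mul_of_nonneg_left hle (show (0 : ℚ) ≤ M by positivity)
      linarith

end defs

variable {d : ℕ} {Φ : Arr (d + 1)} {K : Type} [Field K] [Algebra ℂ K] {R : ℕ} (C : Cv Φ K R)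
  {c : (Fin (d + 2) → ℕ) → ℚ} {δ : Place ℂ K → ℚ}

/-- **The Kodaira dimension.** -/
theorem kod_ge_d (hcf : Coef C c δ) (hfg : FG C.M C.a c)
    (hne : (PiC C.M C.a Φ.dF c).Nonempty) {h : ℕ}
    (hh : Module.finrank ℚ (vectorSpan ℚ (PiC C.M C.a Φ.dF c)) = h) : BKod (d + 1) δ h := by
  classical
  obtain ⟨T1, hT1⟩ := exists_big C.hM (by omega) hfg
  have hPi := PiC_eq (dF := Φ.dF) C.hM hcf.le hT1
  obtain ⟨y0, y, hy0, hy, hlin⟩ : ∃ (y0 : Fin (d + 2) → ℚ) (y : Fin h → Fin (d + 2) → ℚ),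
      y0 ∈ PiC C.M C.a Φ.dF c ∧ (∀ i, y i ∈ PiC C.M C.a Φ.dF c) ∧
      LinearIndependent ℚ fun i => y i - y0 := by
    rw [hPi] at hne hh ⊢
    exact exists_pointsb hne hh
  obtain ⟨p, hp⟩ : ∃ p : Fin (h + 1) → Fin (d + 2) → ℚ, p = Fin.cases y0 y := ⟨_, rfl⟩
  have hp0 : p 0 = y0 := by rw [hp]; rfl
  have hps : ∀ i : Fin h, p i.succ = y i := fun i => by rw [hp]; rfl
  have hpP : ∀ b, p b ∈ PiC C.M C.a Φ.dF c := by
    intro b
    refine Fin.cases ?_ (fun i => ?_) b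
    · rw [hp0]
      exact hy0
    · rw [hps]
      exact hy i
  obtain ⟨T0, hT0, hden⟩ := exists_den fun x : Fin (h + 1) × Fin (d + 2) => p x.1 x.2
  choose w' hw' using hden
  obtain ⟨w, hw⟩ : ∃ w : Fin (h + 1) → Fin (d + 2) → ℤ, w = fun b k => w' (b, k) := ⟨_, rfl⟩
  obtain ⟨T, hT⟩ : ∃ T : ℕ, T = Φ.E * T0 := ⟨_, rfl⟩
  have hTpos : 0 < T := by
    rw [hT]
    exact Nat.mul_pos Φ.E_pos hT0
  have hwT : ∀ b k, ((Φ.E * w b k : ℤ) : ℚ) = T * p b k := by
    intro b k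
    rw [hT, hw]
    push_cast
    rw [mul_assoc, hw' (b, k)]
  -- the degrees
  have hdeg : ∀ b, ∑ k, (Φ.dF k : ℤ) * (Φ.E * w b k) = T * (∑ k, (Φ.dF k : ℤ) - (d + 2)) := by
    intro b
    have h1 : ((∑ k, (Φ.dF k : ℤ) * (Φ.E * w b k) : ℤ) : ℚ) =
        ((T * (∑ k, (Φ.dF k : ℤ) - (d + 2)) : ℤ) : ℚ) := by
      have h2 := (hpP b).1
      push_cast
      have h3 : ∀ k, (Φ.dF k : ℚ) * (Φ.E * w b k) = T * (Φ.dF k * p b k) := by
        intro k
        have h4 := hwT b k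
        push_cast at h4
        rw [h4]
        ring
      rw [Finset.sum_congr rfl fun k _ => h3 k, ← Finset.mul_sum, h2]
      push_cast
      ring
    exact_mod_cast h1
  obtain ⟨D0, hD0⟩ := exists_dual C.u_bas
  have hbw0 : bw D0 C.x = 1 := by
    rw [Pool.Agent.W930.CG.bw_one D0 C.x C.hx0]
    change (Matrix.of fun i j => D0 i (C.u j)).det = 1
    rw [hD0, Matrix.det_one]
  obtain ⟨Ex, hEx⟩ : ∃ Ex : Fin (h + 1) → K,
    Ex = fun b => ∏ k, aeval C.x (Φ.F k) ^ ((Φ.E : ℤ) * w b k - T) := ⟨_, rfl⟩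
  have hExne : ∀ b, Ex b ≠ 0 := by
    intro b
    rw [hEx]
    exact Finset.prod_ne_zero_iff.2 fun k _ => zpow_ne_zero _ (C.F_ne k)
  refine ⟨T, hTpos, fun b D => bw D C.x ^ T * Ex b, fun b => ⟨?_, ?_⟩, D0, ?_, ?_⟩
  · intro A D
    dsimp only
    rw [(bwa (d + 1) K).2.1 A D C.x, mul_pow]
    ring
  · intro P _ D hD
    obtain ⟨α, v, hα, hdat⟩ := C.exists_dat P
    have h1 := bw_reg_ord Φ.hS Φ.hh hdat hD
    have hEord : P.ord (Ex b) = ∑ k, ((Φ.E : ℤ) * w b k - T) * (Φ.dF k * α + v k) := by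
      rw [hEx]
      dsimp only
      rw [ord_prod' P Finset.univ _ fun k _ => zpow_ne_zero _ (C.F_ne k)]
      exact Finset.sum_congr rfl fun k _ => by rw [P.ord_zpow, hdat.hv]
    have h2 := (h1.pow T).mul (ge_ord P (Ex b))
    dsimp only
    rcases h2 with h2 | h2
    · exact Or.inl h2
    · right
      refine ⟨1, by simp, one_ne_zero, ?_⟩
      rw [P.ord_one, hcf.hδ P α v hdat]
      have h3 : ∑ k, ((Φ.E : ℤ) * w b k - T) * (Φ.dF k * α + v k) =
          α * (∑ k, (Φ.dF k : ℤ) * (Φ.E * w b k)) + ∑ k, ((Φ.E : ℤ) * w b k) * v k -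
          T * α * ∑ k, (Φ.dF k : ℤ) - T * ∑ k, (v k : ℤ) := by
        rw [Finset.mul_sum, Finset.mul_sum, Finset.mul_sum, ← Finset.sum_add_distrib,
          ← Finset.sum_sub_distrib, ← Finset.sum_sub_distrib]
        exact Finset.sum_congr rfl fun k _ => by ring
      rw [hEord, h3, hdeg] at h2
      have h4 : (T : ℚ) * ((if v = 0 then 0 else 1) - c v) ≤
          ((∑ k, ((Φ.E : ℤ) * w b k) * v k : ℤ) : ℚ) := by
        by_cases hv : v = 0
        · rw [if_pos hv, hv, hcf.h0]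
          simp
        · rw [if_neg hv]
          have h5 := (hpP b).2 v (C.adm hdat hv)
          have h6 : (T : ℚ) * (1 - c v) ≤ T * ∑ k, (v k : ℚ) * p b k :=
            mul_le_mul_of_nonneg_left h5 (by positivity)
          have h7 : (T : ℚ) * ∑ k, (v k : ℚ) * p b k =
              ((∑ k, ((Φ.E : ℤ) * w b k) * v k : ℤ) : ℚ) := by
            rw [Finset.mul_sum]
            push_cast
            refine Finset.sum_congr rfl fun k _ => ?_
            have h8 := hwT b k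
            push_cast at h8
            rw [h8]
            ring
          rwa [h7] at h6
      have h9 : (((if v = 0 then (0 : ℤ) else 1) : ℤ) : ℚ) = if v = 0 then 0 else 1 := by
        split_ifs <;> simp
      have h10 := (Int.cast_le (R := ℚ)).2 h2
      push_cast at h4 h9 h10 ⊢
      try rw [h9] at h10
      nlinarith
  · dsimp only
    rw [hbw0, one_pow, one_mul]
    exact hExne 0
  · -- the ratios
    obtain ⟨δ', hδ⟩ : ∃ δ : Fin h → Fin (d + 2) → ℤ, δ = fun b k => w b.succ k - w 0 k := ⟨_, rfl⟩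
    have hδsum : ∀ b, ∑ k, (Φ.dF k : ℤ) * δ' b k = 0 := by
      intro b
      have h1 := hdeg b.succ
      have h2 := hdeg 0
      have h3 : (Φ.E : ℤ) * ∑ k, (Φ.dF k : ℤ) * δ' b k = 0 := by
        have h4 : (Φ.E : ℤ) * ∑ k, (Φ.dF k : ℤ) * δ' b k =
            ∑ k, (Φ.dF k : ℤ) * (Φ.E * w b.succ k) - ∑ k, (Φ.dF k : ℤ) * (Φ.E * w 0 k) := by
          rw [Finset.mul_sum, ← Finset.sum_sub_distrib]
          refine Finset.sum_congr rfl fun k _ => ?_
          rw [hδ]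
          ring
        rw [h4, h1, h2, sub_self]
      exact (mul_eq_zero.1 h3).resolve_left (by exact_mod_cast Φ.E_pos.ne')
    have hratio : ∀ b : Fin h, bw D0 C.x ^ T * Ex b.succ / (bw D0 C.x ^ T * Ex 0) =
        ∏ i : Fin (d + 1), C.Y i ^ ((Φ.dF i.succ : ℤ) * δ' b i.succ) := by
      intro b
      rw [hbw0, one_pow, one_mul, one_mul, hEx]
      dsimp only
      rw [← Finset.prod_div_distrib]
      have h1 : ∀ k, aeval C.x (Φ.F k) ^ ((Φ.E : ℤ) * w b.succ k - T) /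
          aeval C.x (Φ.F k) ^ ((Φ.E : ℤ) * w 0 k - T) =
          aeval C.x (Φ.G k) ^ ((Φ.dF k : ℤ) * δ' b k) := by
        intro k
        rw [← zpow_sub₀ (C.F_ne k), ae_G, ← zpow_natCast (aeval C.x (Φ.F k)), ← zpow_mul]
        congr 1
        have h2 : (Φ.dF k : ℤ) * Φ.ee k = Φ.E := by exact_mod_cast Φ.d_ee k
        rw [hδ, ← h2]
        ring
      rw [Finset.prod_congr rfl fun k _ => h1 k, Fin.prod_univ_succ]
      have h2 : (Φ.dF 0 : ℤ) * δ' b 0 = - ∑ i : Fin (d + 1), (Φ.dF i.succ : ℤ) * δ' b i.succ := by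
        have h3 := hδsum b
        rw [Fin.sum_univ_succ] at h3
        linarith
      rw [h2, ← Finset.sum_neg_distrib, ← prod_zpow_sum (C.G_ne 0), ← Finset.prod_mul_distrib]
      refine Finset.prod_congr rfl fun i _ => ?_
      unfold Y
      rw [div_zpow, zpow_neg, div_eq_mul_inv, mul_comm]
    change AlgebraicIndependent ℂ (fun b : Fin h =>
      bw D0 C.x ^ T * Ex b.succ / (bw D0 C.x ^ T * Ex 0))
    rw [funext hratio]
    refine laurent_ind C.bas_Y.1 C.Y_ne _ ?_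
    rw [Fintype.linearIndependent_iff]
    intro g hg
    have h1 : ∀ i : Fin (d + 1), ∑ b, g b * (δ' b i.succ : ℚ) = 0 := by
      intro i
      have h2 := congrFun hg i
      rw [Finset.sum_apply] at h2
      simp only [Pi.smul_apply, smul_eq_mul, Pi.zero_apply] at h2
      push_cast at h2
      have h3 : (Φ.dF i.succ : ℚ) * ∑ b, g b * (δ' b i.succ : ℚ) = 0 := by
        rw [Finset.mul_sum, ← h2]
        exact Finset.sum_congr rfl fun b _ => by ring
      exact (mul_eq_zero.1 h3).resolve_left (by exact_mod_cast (Φ.hd _).ne')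
    have h0 : ∑ b, g b * (δ' b 0 : ℚ) = 0 := by
      have h3 : (Φ.dF 0 : ℚ) * ∑ b, g b * (δ' b 0 : ℚ) = 0 := by
        have h4 : ∀ b, (Φ.dF 0 : ℚ) * δ' b 0 =
            - ∑ i : Fin (d + 1), (Φ.dF i.succ : ℚ) * δ' b i.succ := by
          intro b
          have h5 := hδsum b
          rw [Fin.sum_univ_succ] at h5
          have h6 : (((Φ.dF 0 : ℤ) * δ' b 0 +
              ∑ i : Fin (d + 1), (Φ.dF i.succ : ℤ) * δ' b i.succ : ℤ) : ℚ) = 0 := by
            rw [h5]
            rfl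
          push_cast at h6
          linarith
        calc (Φ.dF 0 : ℚ) * ∑ b, g b * (δ' b 0 : ℚ) = ∑ b, g b * ((Φ.dF 0 : ℚ) * δ' b 0) := by
              rw [Finset.mul_sum]
              exact Finset.sum_congr rfl fun b _ => by ring
          _ = ∑ b, ∑ i : Fin (d + 1), -((Φ.dF i.succ : ℚ) * (g b * δ' b i.succ)) := by
              refine Finset.sum_congr rfl fun b _ => ?_
              rw [h4, mul_neg, Finset.mul_sum, ← Finset.sum_neg_distrib]
              exact Finset.sum_congr rfl fun i _ => by ring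
          _ = ∑ i : Fin (d + 1), -((Φ.dF i.succ : ℚ) * ∑ b, g b * δ' b i.succ) := by
              rw [Finset.sum_comm]
              refine Finset.sum_congr rfl fun i _ => ?_
              rw [Finset.sum_neg_distrib, Finset.mul_sum]
          _ = 0 := by
              refine Finset.sum_eq_zero fun i _ => ?_
              rw [h1, mul_zero, neg_zero]
      exact (mul_eq_zero.1 h3).resolve_left (by exact_mod_cast (Φ.hd _).ne')
    have h2 : ∀ k, ∑ b, g b * (δ' b k : ℚ) = 0 := fun k => Fin.cases h0 h1 k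
    refine Fintype.linearIndependent_iff.1 hlin g ?_
    funext k
    rw [Finset.sum_apply, Pi.zero_apply]
    have h3 : ∀ b, (T : ℚ) * ((y b - y0) k) = Φ.E * δ' b k := by
      intro b
      have h4 := hwT b.succ k
      have h5 := hwT 0 k
      rw [hps] at h4
      rw [hp0] at h5
      rw [Pi.sub_apply, mul_sub, ← h4, ← h5, hδ]
      push_cast
      ring
    have h4 : (T : ℚ) * ∑ b, (g b • (y b - y0)) k = 0 := by
      calc (T : ℚ) * ∑ b, (g b • (y b - y0)) k = ∑ b, g b * ((T : ℚ) * ((y b - y0) k)) := by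
            rw [Finset.mul_sum]
            refine Finset.sum_congr rfl fun b _ => ?_
            rw [Pi.smul_apply, smul_eq_mul]
            ring
        _ = Φ.E * ∑ b, g b * δ' b k := by
            rw [Finset.mul_sum]
            refine Finset.sum_congr rfl fun b _ => ?_
            rw [h3]
            ring
        _ = 0 := by rw [h2, mul_zero]
    exact (mul_eq_zero.1 h4).resolve_left (by exact_mod_cast hTpos.ne')

end Pool.Agent.Q57.TP
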