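import Pool.Agent.Q57.TP.LP
import Pool.Agent.Y169.TH.Cnt

/-!
The polyhedron of a pair is given by finitely many inequalities.
-/

set_option autoImplicit false
set_option linter.overlappingInstances false
set_option linter.unusedSectionVars false
set_option maxHeartbeats 400000

open Pool.Agent.Y169.TH

namespace Pool.Agent.Q57.TP

section

variable {N R : ℕ} {M : Fin R → ℕ} {a : Fin R → Fin N → ℕ} {dF : Fin N → ℕ}
  {c : (Fin N → ℕ) → ℚ}

/-- the polyhedron of a pair -/
def PiC (M : Fin R → ℕ) (a : Fin R → Fin N → ℕ) (dF : Fin N → ℕ) (c : (Fin N → ℕ) → ℚ) :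
    Set (Fin N → ℚ) :=
  {y | ∑ k, (dF k : ℚ) * y k = ∑ k, (dF k : ℚ) - N ∧
    ∀ v, Adm M a v → 1 - c v ≤ ∑ k, (v k : ℚ) * y k}

/-- finitely many of the inequalities imply the others -/
def FG (M : Fin R → ℕ) (a : Fin R → Fin N → ℕ) (c : (Fin N → ℕ) → ℚ) : Prop :=
  ∃ T : Finset (Fin N → ℕ), (∀ s ∈ T, Adm M a s) ∧ ∀ v, Adm M a v →
    ∃ w : (Fin N → ℕ) → ℚ, (∀ s, 0 ≤ w s) ∧ (∀ k, ∑ s ∈ T, w s * s k ≤ v k) ∧
      1 - c v ≤ ∑ s ∈ T, w s * (1 - c s)

/-- the rational vector -/
def qv (v : Fin N → ℕ) : Fin N → ℚ := fun k => (v k : ℚ)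

/-- multiples of the unit vectors -/
def uv (M : Fin R → ℕ) (k : Fin N) : Fin N → ℕ := fun i => if i = k then per M else 0

theorem adm_unit (hM : ∀ j, 0 < M j) (hN : 2 ≤ N) (k : Fin N) : Adm M a (uv M k) := by
  classical
  have hL := per_pos hM
  refine ⟨?_, ?_, fun j => ?_⟩
  · intro h0
    have h2 := congrFun h0 k
    rw [Pi.zero_apply] at h2
    unfold uv at h2
    simp only [if_true] at h2
    omega
  · have : Nontrivial (Fin N) := Fin.nontrivial_iff_two_le.2 hN
    obtain ⟨i, hi⟩ := exists_ne k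
    exact ⟨i, if_neg hi⟩
  · refine Finset.dvd_sum fun i _ => ?_
    unfold uv
    split_ifs
    · exact dvd_mul_of_dvd_right (dvd_per M j) _
    · rw [mul_zero]
      exact dvd_zero _

/-- a set of vectors which is large enough -/
structure Big (M : Fin R → ℕ) (a : Fin R → Fin N → ℕ) (c : (Fin N → ℕ) → ℚ)
    (T : Finset (Fin N → ℕ)) : Prop where
  adm : ∀ s ∈ T, Adm M a s
  unit : ∀ k, uv M k ∈ T
  gen : ∀ v, Adm M a v → ∃ w : (Fin N → ℕ) → ℚ, (∀ s, 0 ≤ w s) ∧
    (∀ k, ∑ s ∈ T, w s * s k ≤ v k) ∧ 1 - c v ≤ ∑ s ∈ T, w s * (1 - c s)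

theorem exists_big (hM : ∀ j, 0 < M j) (hN : 2 ≤ N) (h : FG M a c) :
    ∃ T, Big M a c T := by
  classical
  obtain ⟨T, hT, hg⟩ := h
  refine ⟨T ∪ Finset.univ.image (uv M), ?_, fun k => ?_, fun v hv => ?_⟩
  · intro s hs
    rcases Finset.mem_union.1 hs with h1 | h1
    · exact hT s h1
    · obtain ⟨k, -, rfl⟩ := Finset.mem_image.1 h1
      exact adm_unit hM hN k
  · exact Finset.mem_union_right _ (Finset.mem_image_of_mem _ (Finset.mem_univ k))
  · obtain ⟨w, hw, h1, h2⟩ := hg v hv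
    have key : ∀ f : (Fin N → ℕ) → ℚ, ∑ s ∈ T ∪ Finset.univ.image (uv M),
        (if s ∈ T then w s else 0) * f s = ∑ s ∈ T, w s * f s := by
      intro f
      rw [← Finset.sum_subset (Finset.subset_union_left (s₁ := T)
        (s₂ := Finset.univ.image (uv M)))]
      · exact Finset.sum_congr rfl fun s hs => by rw [if_pos hs]
      · intro s _ hs
        rw [if_neg hs, zero_mul]
    refine ⟨fun s => if s ∈ T then w s else 0, fun s => ?_, fun k => ?_, ?_⟩
    · dsimp only
      split_ifs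
      · exact hw s
      · exact le_rfl
    · have h3 := key fun s => (s k : ℚ)
      rw [h3]
      exact h1 k
    · have h3 := key fun s => 1 - c s
      rw [h3]
      exact h2

/-- a lower bound for the coordinates -/
theorem low_of_big (hM : ∀ j, 0 < M j) {T : Finset (Fin N → ℕ)} (hT : Big M a c T)
    {y : Fin N → ℚ} {C : ℚ} (hC : 0 ≤ C)
    (h : ∀ s ∈ T, - C ≤ dotL (qv s) y) (k : Fin N) : - C ≤ y k := by
  classical
  have h1 := h _ (hT.unit k)
  rw [dotL_apply, Finset.sum_eq_single k] at h1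
  · unfold qv uv at h1
    rw [if_pos rfl] at h1
    have h2 : (1 : ℚ) ≤ per M := by exact_mod_cast per_pos hM
    by_contra hneg
    push Not at hneg
    have h3 : y k < 0 := by linarith
    nlinarith
  · intro i _ hi
    unfold qv uv
    rw [if_neg hi, Nat.cast_zero, zero_mul]
  · intro hk
    exact absurd (Finset.mem_univ _) hk

/-- the polyhedron is given by finitely many inequalities -/
theorem PiC_eq (hM : ∀ j, 0 < M j) (hle : ∀ v, c v ≤ 1) {T : Finset (Fin N → ℕ)}
    (hT : Big M a c T) :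
    PiC M a dF c = Polb (fun k => (dF k : ℚ)) (∑ k, (dF k : ℚ) - N)
      (fun s : T => qv s.1) fun s => 1 - c s.1 := by
  ext y
  constructor
  · rintro ⟨h1, h2⟩
    exact ⟨h1, fun s => h2 _ (hT.adm _ s.2)⟩
  · rintro ⟨h1, h2⟩
    refine ⟨h1, fun v hv => ?_⟩
    obtain ⟨w, hw, hwv, hwc⟩ := hT.gen v hv
    have h3 : ∀ k, 0 ≤ y k := by
      intro k
      have h4 := low_of_big hM hT (C := 0) le_rfl (y := y) (fun s hs => by
        have h5 := h2 ⟨s, hs⟩
        dsimp only at h5
        have h6 := hle s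
        linarith) k
      linarith
    refine hwc.trans ?_
    have h4 : ∑ s ∈ T, w s * (1 - c s) ≤ ∑ s ∈ T, w s * dotL (qv s) y :=
      Finset.sum_le_sum fun s hs => mul_le_mul_of_nonneg_left (h2 ⟨s, hs⟩) (hw s)
    refine h4.trans ?_
    have h5 : ∑ s ∈ T, w s * dotL (qv s) y = ∑ k, (∑ s ∈ T, w s * s k) * y k := by
      simp only [dotL_apply, Finset.mul_sum, Finset.sum_mul]
      rw [Finset.sum_comm]
      refine Finset.sum_congr rfl fun k _ => Finset.sum_congr rfl fun s _ => ?_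
      unfold qv
      ring
    rw [h5]
    exact Finset.sum_le_sum fun k _ => mul_le_mul_of_nonneg_right (hwv k) (h3 k)

/-- finitely many values -/
theorem fg_of_finite (hc : (Set.range c).Finite) : FG M a c := by
  classical
  have h1 : {v | Minimal (· ∈ {w | Adm M a w ∧ c w = c v}) v} ⊆ ⋃ q ∈ Set.range c,
      {v | Minimal (· ∈ {w | Adm M a w ∧ c w = q}) v} := by
    intro v hv
    exact Set.mem_biUnion ⟨v, rfl⟩ hv
  have h3 : {v | Minimal (· ∈ {w | Adm M a w ∧ c w = c v}) v}.Finite := by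
    refine (hc.biUnion fun q _ => ?_).subset h1
    have h2 : IsAntichain (· ≤ ·) {v | Minimal (· ∈ {w | Adm M a w ∧ c w = q}) v} :=
      setOfPred_minimal_antichain _
    exact h2.finite_of_partiallyWellOrderedOn (Set.isPWO_of_wellQuasiOrderedLE _)
  refine ⟨h3.toFinset, fun s hs => ?_, fun v hv => ?_⟩
  · have h4 := h3.mem_toFinset.1 hs
    exact h4.1.1
  · have h1 : ({w | Adm M a w ∧ c w = c v} : Set (Fin N → ℕ)).IsPWO :=
      Set.isPWO_of_wellQuasiOrderedLE _
    obtain ⟨s, hs, hm⟩ := h1.exists_le_minimal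
      (show v ∈ {w | Adm M a w ∧ c w = c v} from ⟨hv, rfl⟩)
    have h2 : c s = c v := hm.1.2
    have hsT : s ∈ h3.toFinset := by
      rw [h3.mem_toFinset]
      change Minimal (· ∈ {w | Adm M a w ∧ c w = c s}) s
      rw [h2]
      exact hm
    have key : ∀ f : (Fin N → ℕ) → ℚ, ∑ t ∈ h3.toFinset, (if t = s then 1 else 0) * f t = f s := by
      intro f
      rw [Finset.sum_eq_single s]
      · rw [if_pos rfl, one_mul]
      · intro t _ ht
        rw [if_neg ht, zero_mul]
      · intro h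
        exact absurd hsT h
    refine ⟨fun t => if t = s then 1 else 0, fun t => ?_, fun k => ?_, ?_⟩
    · dsimp only
      split_ifs
      · exact zero_le_one
      · exact le_rfl
    · rw [key fun t => (t k : ℚ)]
      exact_mod_cast hs k
    · rw [key fun t => 1 - c t, h2]

end

end Pool.Agent.Q57.TP
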