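import Pool.Agent.Q57.TP.Up
import Pool.Agent.Q57.TP.Red

/-!
The numerical dimension and the pseudo-effectivity of a pair in terms of a polyhedron
(following `Pool.Agent.Y169.TH.Cnt`).
-/

set_option autoImplicit false
set_option linter.overlappingInstances false
set_option linter.unusedSectionVars false
set_option maxHeartbeats 1000000

open FF MvPolynomial IntermediateField Pool.Agent.W603.LV Pool.Agent.W619.PQ
open Pool.Agent.W619.TW Pool.Agent.W602.GT Pool.Agent.TH122.AB Pool.Agent.TH756.PN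
open Pool.Agent.Y169.CH Pool.Agent.Y169.TH

namespace Pool.Agent.Q57.TP

variable {d : ℕ} {Φ : Arr (d + 1)} {K : Type} [Field K] [Algebra ℂ K] {R : ℕ} (C : Cv Φ K R)
  {c : (Fin (d + 2) → ℕ) → ℚ} {δ : Place ℂ K → ℚ}

theorem dotq_yv' (q : ℕ) (a : Fin (d + 1) →₀ ℕ) (v : Fin (d + 2) → ℕ) :
    dotL (qv v) (fun k => (Cv.yv Φ q a k : ℚ)) =
      ((∑ k, (v k : ℤ) * Cv.yv Φ q a k : ℤ) : ℚ) := Cv.dotq_yv q a v

/-- **Not pseudo-effective.** -/
theorem not_psef_d (hcf : Coef C c δ)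
    (hmul : ∀ v (r : ℕ), 1 ≤ r → Pool.Agent.Y169.TH.Adm C.M C.a v → 1 - c (r • v) ≤ r * (1 - c v))
    (hfg : FG C.M C.a c) (hP : PiC C.M C.a Φ.dF c = ∅) (S : Finset K) :
    ∃ M : ℕ, ∀ j : ℕ, 1 ≤ j → ∀ ω : (Fin (d + 1) → Derivation ℂ K K) → K,
      SecD (d + 1) δ (pw S j) (j * M) ω → ω = 0 := by
  classical
  obtain ⟨T1, hT1⟩ := exists_big C.hM (by omega) hfg
  rw [PiC_eq C.hM hcf.le hT1] at hP
  choose T hT using fun s : T1 => C.exists_dir (hT1.adm s.1 s.2)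
  obtain ⟨C0, c1, hC⟩ := sec_bound_d C hcf hmul T S
  obtain ⟨κ, hκ⟩ : ∃ κ : ℤ, κ = ∑ k, (Φ.dF k : ℤ) - (d + 2) := ⟨_, rfl⟩
  have hκq : (∑ k, (Φ.dF k : ℚ) - ((d + 2 : ℕ) : ℚ)) = κ := by
    rw [hκ]
    push_cast
    ring
  have hκ0 : 0 ≤ κ := by
    rw [hκ, sub_nonneg]
    have h1 : ∑ k : Fin (d + 2), (1 : ℤ) ≤ ∑ k, (Φ.dF k : ℤ) :=
      Finset.sum_le_sum fun k _ => by exact_mod_cast Φ.hd k
    simpa using h1
  have hdq : ∀ k, (0 : ℚ) < Φ.dF k := fun k => by exact_mod_cast Φ.hd k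
  obtain ⟨ρ, A0, hρ, hA0, hρy⟩ := lpb_empty hdq
    (fun (s : T1) k => by unfold qv; positivity) (fun s h0 => (hT1.adm s.1 s.2).1 (by
      funext k
      have h1 : ((s.1 k : ℕ) : ℚ) = 0 := congrFun h0 k
      rw [Pi.zero_apply]
      exact_mod_cast h1)) (by omega) hP
  rw [hκq] at hρ
  have hκρ : 0 < ρ - κ := by linarith
  obtain ⟨M, hM⟩ := exists_nat_gt ((2 * (A0 + 1) * c1 + Φ.E) / (ρ - κ))
  rw [div_lt_iff₀ hκρ] at hM
  refine ⟨M, fun j hj ω hω => ?_⟩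
  by_contra hω0
  obtain ⟨X, hX⟩ : ∃ X : ℤ, X = κ * ((j * M : ℕ) : ℤ) + c1 * (j + 1) := ⟨_, rfl⟩
  have hX0 : 0 ≤ X := by
    rw [hX]
    positivity
  obtain ⟨q, hq⟩ : ∃ q : ℕ, q = X.toNat / Φ.E + 1 := ⟨_, rfl⟩
  have hXn : (X.toNat : ℤ) = X := Int.toNat_of_nonneg hX0
  have hq1 : X ≤ Φ.E * q := by
    have h1 : X.toNat < Φ.E * (X.toNat / Φ.E + 1) := Nat.lt_mul_div_succ _ Φ.E_pos
    have h2 : (X.toNat : ℤ) ≤ Φ.E * q := by
      rw [hq]
      exact_mod_cast h1.le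
    rwa [hXn] at h2
  have hq2 : (Φ.E * q : ℤ) ≤ X + Φ.E := by
    have h1 : (Φ.E * q : ℕ) ≤ X.toNat + Φ.E := by
      rw [hq, mul_add, mul_one]
      exact Nat.add_le_add_right (Nat.mul_div_le _ _) _
    have h2 : (Φ.E * q : ℤ) ≤ (X.toNat : ℤ) + Φ.E := by exact_mod_cast h1
    rwa [hXn] at h2
  have h1 := hC (j * M) j q 1 (fun _ => ω) ?_ (fun _ => hω) ?_ ∅ ?_
  · simp at h1
  · rw [linearIndependent_unique_iff]
    exact hω0
  · rw [← hκ, ← hX]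
    exact hq1
  · intro a ha
    exfalso
    have h2 := hρy (fun k => (Cv.yv Φ q a k : ℚ)) ((j * M : ℕ) : ℚ) (c1 * (j + 1)) fun s => by
      rw [dotq_yv', Cv.dot_yv]
      have h3 := ha s
      rw [hT] at h3
      exact h3
    have h3 : dotL (fun k => (Φ.dF k : ℚ)) (fun k => (Cv.yv Φ q a k : ℚ)) =
        ((Φ.E * q : ℤ) : ℚ) := by
      rw [Cv.dotq_yv, Cv.deg_yv]
    rw [h3] at h2
    have h5 : ((Φ.E * q : ℤ) : ℚ) ≤ ((X + Φ.E : ℤ) : ℚ) := by exact_mod_cast hq2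
    rw [hX] at h5
    have hjq : (1 : ℚ) ≤ j := by exact_mod_cast hj
    push_cast at h2 h5
    have h7 : (j : ℚ) * M * (ρ - κ) ≤ (A0 + 1) * (c1 * (j + 1)) + Φ.E := by linarith
    have h8 : (j : ℚ) * (M * (ρ - κ)) ≤ j * (2 * (A0 + 1) * c1 + Φ.E) := by
      have h9 : (A0 + 1) * c1 * (j + 1) ≤ (A0 + 1) * c1 * (2 * j) := by
        apply mul_le_mul_of_nonneg_left _ (by positivity)
        linarith
      have h10 : (Φ.E : ℚ) * 1 ≤ Φ.E * j := mul_le_mul_of_nonneg_left hjq (by positivity)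
      nlinarith
    have h9 := le_of_mul_le_mul_left h8 (by linarith)
    linarith

/-- **The numerical dimension.** -/
theorem num_le_d (hcf : Coef C c δ)
    (hmul : ∀ v (r : ℕ), 1 ≤ r → Pool.Agent.Y169.TH.Adm C.M C.a v → 1 - c (r • v) ≤ r * (1 - c v))
    (hfg : FG C.M C.a c) (hne : (PiC C.M C.a Φ.dF c).Nonempty) (S : Finset K) :
    ∃ C1 : ℕ, ∀ (m N : ℕ), 1 ≤ m → ∀ ω : Fin N → (Fin (d + 1) → Derivation ℂ K K) → K,
      LinearIndependent ℂ ω → (∀ l, SecD (d + 1) δ S m (ω l)) →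
      N ≤ C1 * m ^ (Module.finrank ℚ (vectorSpan ℚ (PiC C.M C.a Φ.dF c))) := by
  classical
  obtain ⟨T1, hT1⟩ := exists_big C.hM (by omega) hfg
  rw [PiC_eq C.hM hcf.le hT1] at hne ⊢
  choose T hT using fun s : T1 => C.exists_dir (hT1.adm s.1 s.2)
  obtain ⟨C0, c1, hC⟩ := sec_bound_d C hcf hmul T S
  obtain ⟨κ, hκ⟩ : ∃ κ : ℤ, κ = ∑ k, (Φ.dF k : ℤ) - (d + 2) := ⟨_, rfl⟩
  have hκq : (∑ k, (Φ.dF k : ℚ) - ((d + 2 : ℕ) : ℚ)) = κ := by
    rw [hκ]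
    push_cast
    ring
  rw [hκq] at hne ⊢
  have hκ0 : 0 ≤ κ := by
    rw [hκ, sub_nonneg]
    have h1 : ∑ k : Fin (d + 2), (1 : ℤ) ≤ ∑ k, (Φ.dF k : ℤ) :=
      Finset.sum_le_sum fun k _ => by exact_mod_cast Φ.hd k
    simpa using h1
  have hdq : ∀ k, (0 : ℚ) < Φ.dF k := fun k => by exact_mod_cast Φ.hd k
  have hb0 : ∀ s : T1, 0 ≤ 1 - c s.1 := fun s => by linarith [hcf.le s.1]
  have hnn : ∀ y : Fin (d + 2) → ℚ, (∀ s : T1, 0 ≤ dotL (qv s.1) y) → ∀ k, 0 ≤ y k := by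
    intro y hy k
    have h1 := low_of_big C.hM hT1 (C := 0) le_rfl (y := y)
      (fun s hs => by simpa using hy ⟨s, hs⟩) k
    linarith
  obtain ⟨P, hP⟩ : ∃ P : Set (Fin (d + 2) → ℚ),
    P = Polb (fun k => (Φ.dF k : ℚ)) (κ : ℚ) (fun s : T1 => qv s.1)
      fun s => 1 - c s.1 := ⟨_, rfl⟩
  rw [← hP] at hne ⊢
  -- the implicit equations
  let I : Type := {s : T1 // ∀ y ∈ P, dotL (qv s.1) y = 1 - c s.1}
  have : Fintype I := Fintype.ofFinite _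
  have hface : ∀ s : I, ∃ A0 : ℚ, 0 ≤ A0 ∧ ∀ (y : Fin (d + 2) → ℚ) (m c2 B : ℚ), 0 ≤ m → 0 ≤ c2 →
      0 ≤ B → (∀ s : T1, (1 - c s.1) * m - c2 ≤ dotL (qv s.1) y) →
      |dotL (fun k => (Φ.dF k : ℚ)) y - κ * m| ≤ B →
        dotL (qv s.1.1) y ≤ (1 - c s.1.1) * m + A0 * (c2 + B) := by
    intro s
    refine lpb_face hdq hb0 hnn ?_
    rw [← hP]
    exact s.2
  choose A0 hA00 hA0 using hface
  obtain ⟨J, hJ1, hJ2⟩ := exists_coords (vectorSpan ℚ P)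
  -- the constants
  obtain ⟨B, hB⟩ : ∃ B : ℕ, B = 2 * c1 + Φ.E := ⟨_, rfl⟩
  obtain ⟨C1, hC1⟩ := exists_nat_ge ((∑ s, A0 s) * (2 * c1 + B) + 2 * c1)
  obtain ⟨DD, hDD⟩ : ∃ DD : ℕ, DD = ∑ k, Φ.dF k := ⟨_, rfl⟩
  obtain ⟨B', hB'⟩ : ∃ B' : ℕ, B' = κ.toNat + B + 2 * c1 * DD + 2 * c1 := ⟨_, rfl⟩
  refine ⟨C0 * ((C1 + 1) ^ Fintype.card I * (2 * B' + 1) ^ Fintype.card J),
    fun m N hm ω hlin hsec => ?_⟩
  obtain ⟨X, hX⟩ : ∃ X : ℤ, X = κ * m + c1 * (1 + 1) := ⟨_, rfl⟩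
  have hX0 : 0 ≤ X := by
    rw [hX]
    positivity
  obtain ⟨q, hq⟩ : ∃ q : ℕ, q = X.toNat / Φ.E + 1 := ⟨_, rfl⟩
  have hXn : (X.toNat : ℤ) = X := Int.toNat_of_nonneg hX0
  have hq1 : X ≤ Φ.E * q := by
    have h1 : X.toNat < Φ.E * (X.toNat / Φ.E + 1) := Nat.lt_mul_div_succ _ Φ.E_pos
    have h2 : (X.toNat : ℤ) ≤ Φ.E * q := by
      rw [hq]
      exact_mod_cast h1.le
    rwa [hXn] at h2
  have hq2 : (Φ.E * q : ℤ) ≤ X + Φ.E := by
    have h1 : (Φ.E * q : ℕ) ≤ X.toNat + Φ.E := by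
      rw [hq, mul_add, mul_one]
      exact Nat.add_le_add_right (Nat.mul_div_le _ _) _
    have h2 : (Φ.E * q : ℤ) ≤ (X.toNat : ℤ) + Φ.E := by exact_mod_cast h1
    rwa [hXn] at h2
  let A : Finset (Fin (d + 1) →₀ ℕ) :=
    ((Fintype.piFinset fun _ : Fin (d + 1) => Finset.range (q + 2 * c1 + 1)).image
      Finsupp.equivFunOnFinite.symm).filter fun a => ∀ s : T1,
        (1 - c s.1) * m - 2 * c1 ≤ ((∑ k, (s.1 k : ℤ) * Cv.yv Φ q a k : ℤ) : ℚ)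
  have hA1 : ∀ a : Fin (d + 1) →₀ ℕ, (∀ s : T1,
      (1 - c s.1) * m - 2 * c1 ≤ ((∑ k, (s.1 k : ℤ) * Cv.yv Φ q a k : ℤ) : ℚ)) →
      ∀ k, -(2 * c1 : ℤ) ≤ Cv.yv Φ q a k := by
    intro a ha k
    have h1 := low_of_big C.hM hT1 (C := 2 * c1) (by positivity)
      (y := fun k => (Cv.yv Φ q a k : ℚ)) (fun s hs => by
        rw [dotq_yv']
        have h2 := ha ⟨s, hs⟩
        have h3 := mul_nonneg (hb0 ⟨s, hs⟩) (show (0 : ℚ) ≤ m by positivity)
        dsimp only at h2 h3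
        linarith) k
    have h2 : ((-(2 * c1 : ℤ) : ℤ) : ℚ) ≤ ((Cv.yv Φ q a k : ℤ) : ℚ) := by
      push_cast
      exact h1
    exact_mod_cast h2
  have hAmem : ∀ a ∈ A, ∀ s : T1,
      (1 - c s.1) * m - 2 * c1 ≤ ((∑ k, (s.1 k : ℤ) * Cv.yv Φ q a k : ℤ) : ℚ) := fun a ha =>
    (Finset.mem_filter.1 ha).2
  have hqκ : ∀ a : Fin (d + 1) →₀ ℕ,
      |dotL (fun k => (Φ.dF k : ℚ)) (fun k => (Cv.yv Φ q a k : ℚ)) - κ * m| ≤ B := by
    intro a
    rw [Cv.dotq_yv, Cv.deg_yv, abs_le]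
    have h1 : ((X : ℤ) : ℚ) ≤ ((Φ.E * q : ℤ) : ℚ) := by exact_mod_cast hq1
    have h2 : ((Φ.E * q : ℤ) : ℚ) ≤ ((X + Φ.E : ℤ) : ℚ) := by exact_mod_cast hq2
    rw [hX] at h1 h2
    push_cast at h1 h2 ⊢
    rw [hB]
    push_cast
    have h3 : (0 : ℚ) ≤ c1 := by positivity
    have h4 : (0 : ℚ) ≤ Φ.E := by positivity
    constructor <;> linarith
  have hcard : A.card ≤ (C1 + 1) ^ Fintype.card I * (2 * B' + 1) ^ Fintype.card J *
      m ^ Fintype.card J := by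
    refine countb A (fun a (s : I) => ∑ k, (s.1.1 k : ℤ) * Cv.yv Φ q a k)
      (fun a (k : J) => Cv.yv Φ q a k.1) (fun s => ⌈(1 - c s.1.1) * (m : ℚ)⌉ - 2 * c1) C1 B' hm
      (fun a ha s => ?_) (fun a ha k => ?_) fun a ha b hb h1 h2 => ?_
    · constructor
      · have h1 := hAmem a ha s.1
        rw [sub_le_iff_le_add, Int.ceil_le]
        push_cast at h1 ⊢
        linarith
      have h1 := hA0 s (fun k => (Cv.yv Φ q a k : ℚ)) m (2 * c1) B (by positivity) (by positivity)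
        (by positivity) (fun t => by
          rw [dotq_yv']
          exact hAmem a ha t) (hqκ a)
      rw [dotq_yv'] at h1
      have h2 : A0 s ≤ ∑ s, A0 s :=
        Finset.single_le_sum (f := A0) (fun s _ => hA00 s) (Finset.mem_univ s)
      have h3 : A0 s * (2 * c1 + B) ≤ (∑ s, A0 s) * (2 * c1 + B) :=
        mul_le_mul_of_nonneg_right h2 (by positivity)
      have h5 := Int.le_ceil ((1 - c s.1.1) * (m : ℚ))
      have h4 : ((∑ k, (s.1.1 k : ℤ) * Cv.yv Φ q a k : ℤ) : ℚ) ≤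
          ((⌈(1 - c s.1.1) * (m : ℚ)⌉ - 2 * c1 + C1 : ℤ) : ℚ) := by
        push_cast at h1 ⊢
        linarith
      exact_mod_cast h4
    · have h1 := hA1 a (hAmem a ha)
      constructor
      · refine le_trans ?_ (h1 k.1)
        rw [hB']
        push_cast
        have : (0 : ℤ) ≤ κ.toNat + B + 2 * c1 * DD := by positivity
        linarith
      · -- the upper bound
        have h2 := Cv.deg_yv (Φ := Φ) q a
        have h3 : (Φ.dF k.1 : ℤ) * (Cv.yv Φ q a k.1 + 2 * c1) ≤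
            ∑ i, (Φ.dF i : ℤ) * (Cv.yv Φ q a i + 2 * c1) :=
          Finset.single_le_sum (f := fun i => (Φ.dF i : ℤ) * (Cv.yv Φ q a i + 2 * c1))
            (fun i _ => mul_nonneg (by positivity) (by linarith [h1 i])) (Finset.mem_univ k.1)
        simp only [mul_add] at h3
        rw [Finset.sum_add_distrib, h2, ← Finset.sum_mul] at h3
        have h4 : (∑ i, (Φ.dF i : ℤ)) = DD := by
          rw [hDD]
          push_cast
          rfl
        rw [h4] at h3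
        have h5 : (1 : ℤ) ≤ Φ.dF k.1 := by exact_mod_cast Φ.hd k.1
        have h6 : Cv.yv Φ q a k.1 + 2 * c1 ≤ (Φ.dF k.1 : ℤ) * (Cv.yv Φ q a k.1 + 2 * c1) := by
          have h7 : 0 ≤ Cv.yv Φ q a k.1 + 2 * c1 := by linarith [h1 k.1]
          nlinarith
        have h7 : (κ.toNat : ℤ) = κ := Int.toNat_of_nonneg hκ0
        have hm1 : (1 : ℤ) ≤ m := by exact_mod_cast hm
        rw [hB']
        push_cast
        rw [h7, hB]
        push_cast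
        rw [hX] at hq2
        have h8 : (0 : ℤ) ≤ c1 := by positivity
        have h9 : (0 : ℤ) ≤ Φ.E := by positivity
        have h10 : (0 : ℤ) ≤ c1 * DD := by positivity
        have h11 : (2 * c1 : ℤ) * 1 ≤ 2 * c1 * m := mul_le_mul_of_nonneg_left hm1 (by positivity)
        have h12 : (Φ.E : ℤ) * 1 ≤ Φ.E * m := mul_le_mul_of_nonneg_left hm1 h9
        have h13 : (2 * (c1 * DD) : ℤ) * 1 ≤ 2 * (c1 * DD) * m :=
          mul_le_mul_of_nonneg_left hm1 (by positivity)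
        nlinarith
    · -- injectivity
      have h3 : (fun k => (Cv.yv Φ q a k : ℚ)) - (fun k => (Cv.yv Φ q b k : ℚ)) ∈
          vectorSpan ℚ P := by
        rw [hP, vectorSpan_eqb (by rw [← hP]; exact hne)]
        refine ⟨?_, fun s hs => ?_⟩
        · rw [map_sub, Cv.dotq_yv, Cv.dotq_yv, Cv.deg_yv, Cv.deg_yv, sub_self]
        · rw [← hP] at hs
          have h4 := congrFun h1 ⟨s, hs⟩
          dsimp only at h4
          rw [map_sub, dotq_yv', dotq_yv', h4, sub_self]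
      have h4 := hJ2 _ h3 fun k hk => by
        have h5 := congrFun h2 ⟨k, hk⟩
        dsimp only at h5
        rw [Pi.sub_apply, h5, sub_self]
      ext i
      have h5 := congrFun h4 i.succ
      rw [Pi.sub_apply, Pi.zero_apply, sub_eq_zero, Cv.yv_succ, Cv.yv_succ] at h5
      have h6 : (Φ.ee i.succ : ℤ) * a i = (Φ.ee i.succ : ℤ) * b i := by exact_mod_cast h5
      have h7 : (Φ.ee i.succ : ℤ) ≠ 0 := by exact_mod_cast (Φ.ee_pos _).ne'
      exact_mod_cast mul_left_cancel₀ h7 h6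
  have hfin := hC m 1 q N ω hlin (fun l => by rw [Pool.Agent.Y169.CH.Cvr.pw_one]; exact hsec l) (by
    rw [← hκ]
    rw [hX] at hq1
    exact_mod_cast hq1) A fun a ha => ?_
  · refine hfin.trans ?_
    rw [← hJ1]
    have h1 : Fintype.card J = J.card := Fintype.card_coe J
    rw [h1] at hcard
    calc C0 * A.card ≤ C0 * ((C1 + 1) ^ Fintype.card I * (2 * B' + 1) ^ J.card * m ^ J.card) :=
          Nat.mul_le_mul_left _ hcard
      _ = _ := by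
        rw [h1]
        ring
  · have ha' : ∀ s : T1,
        (1 - c s.1) * m - 2 * c1 ≤ ((∑ k, (s.1 k : ℤ) * Cv.yv Φ q a k : ℤ) : ℚ) := by
      intro s
      have h1 := ha s
      rw [hT] at h1
      rw [Cv.dot_yv]
      refine le_trans (le_of_eq ?_) h1
      push_cast
      ring
    refine Finset.mem_filter.2 ⟨Finset.mem_image.2 ⟨Finsupp.equivFunOnFinite a, ?_, by simp⟩, ha'⟩
    rw [Fintype.mem_piFinset]
    intro b
    rw [Finset.mem_range]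
    change a b < _
    have h1 := hA1 a ha' 0
    rw [Cv.yv_zero] at h1
    have h2 : (1 : ℤ) ≤ Φ.ee 0 := by exact_mod_cast Φ.ee_pos 0
    have h3 : (a b : ℤ) ≤ ∑ b, (a b : ℤ) :=
      Finset.single_le_sum (f := fun b => (a b : ℤ)) (fun _ _ => by positivity) (Finset.mem_univ b)
    have h4 : -(2 * c1 : ℤ) ≤ q - ∑ b, (a b : ℤ) := by
      by_contra hneg
      push Not at hneg
      have : (0 : ℤ) ≤ c1 := by positivity
      nlinarith
    have h5 : (a b : ℤ) < ((q + 2 * c1 + 1 : ℕ) : ℤ) := by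
      push_cast
      linarith
    exact_mod_cast h5

end Pool.Agent.Q57.TP
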