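import Pool.Agent.Y169.TH.LP

/-!
Rational polyhedra given by inequalities with nonnegative coefficients and nonnegative constants
(following `Pool.Agent.Y169.TH.LP`, where the constants are one).
-/

set_option autoImplicit false
set_option linter.overlappingInstances false
set_option linter.unusedSectionVars false
set_option maxHeartbeats 400000

open Pool.Agent.TH152.AC Pool.Agent.Y169.TH

namespace Pool.Agent.Q57.TP

section

variable {N : ℕ} {ι : Type} [Fintype ι]

/-- the polyhedron -/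
def Polb (d : Fin N → ℚ) (κ : ℚ) (v : ι → Fin N → ℚ) (b : ι → ℚ) : Set (Fin N → ℚ) :=
  {y | dotL d y = κ ∧ ∀ s, b s ≤ dotL (v s) y}

variable {d : Fin N → ℚ} {κ : ℚ} {v : ι → Fin N → ℚ} {b : ι → ℚ}

theorem scale_polb {y : Fin N → ℚ} {t : ℚ} (ht : 0 < t) (h1 : dotL d y = κ * t)
    (h2 : ∀ s, b s * t ≤ dotL (v s) y) : t⁻¹ • y ∈ Polb d κ v b := by
  refine ⟨?_, fun s => ?_⟩
  · rw [map_smul, h1, smul_eq_mul]
    field_simp
  · rw [map_smul, smul_eq_mul]
    have h3 := mul_le_mul_of_nonneg_left (h2 s) (inv_pos.2 ht).le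
    have h4 : t⁻¹ * (b s * t) = b s := by
      field_simp
    rwa [h4] at h3

/-- **The empty polyhedron.** -/
theorem lpb_empty (hd : ∀ k, 0 < d k) (hv : ∀ s k, 0 ≤ v s k) (hv0 : ∀ s, v s ≠ 0)
    (hN : 0 < N) (hP : Polb d κ v b = ∅) :
    ∃ ρ A : ℚ, κ < ρ ∧ 0 ≤ A ∧ ∀ (y : Fin N → ℚ) (M C : ℚ),
      (∀ s, b s * M - C ≤ dotL (v s) y) → ρ * M - A * C ≤ dotL d y := by
  classical
  let l : ι ⊕ Bool → ((Fin N → ℚ) × ℚ) →ₗ[ℚ] ℚ := Sum.elim
    (fun s => b s • LinearMap.snd ℚ _ _ - (dotL (v s)).comp (LinearMap.fst ℚ _ _))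
    (fun b => (if b then (1 : ℚ) else -1) • ((dotL d).comp (LinearMap.fst ℚ _ _) -
      κ • LinearMap.snd ℚ _ _))
  obtain ⟨w, hw, hf⟩ := farkas_fin l (LinearMap.snd ℚ (Fin N → ℚ) ℚ) (by
    rintro ⟨y, t⟩ hyt
    by_contra ht
    push Not at ht
    change 0 < t at ht
    have h1 : ∀ s, b s * t - dotL (v s) y ≤ 0 := fun s => hyt (Sum.inl s)
    have h2 := hyt (Sum.inr true)
    have h3 := hyt (Sum.inr false)
    simp only [l, Sum.elim_inr, if_true, LinearMap.smul_apply, LinearMap.sub_apply,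
      LinearMap.comp_apply, LinearMap.fst_apply, LinearMap.snd_apply, smul_eq_mul] at h2 h3
    have h4 : t⁻¹ • y ∈ Polb d κ v b := scale_polb ht (by
      simp at h3
      linarith) fun s => by linarith [h1 s]
    rw [hP] at h4
    exact h4)
  obtain ⟨c, hc⟩ : ∃ c, c = w (Sum.inr true) - w (Sum.inr false) := ⟨_, rfl⟩
  have hf' : ∀ (y : Fin N → ℚ) (t : ℚ), t = ∑ s, w (Sum.inl s) * (b s * t - dotL (v s) y) +
      c * (dotL d y - κ * t) := by
    intro y t
    have h1 := hf (y, t)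
    rw [Fintype.sum_sum_type, Fintype.sum_bool] at h1
    simp only [l, Sum.elim_inr, Sum.elim_inl, if_true, LinearMap.smul_apply, LinearMap.sub_apply,
      LinearMap.comp_apply, LinearMap.fst_apply, LinearMap.snd_apply, smul_eq_mul] at h1
    conv_lhs => rw [h1]
    rw [hc]
    simp
    ring
  have h1 : 1 = ∑ s, w (Sum.inl s) * b s - c * κ := by
    have h2 := hf' 0 1
    simp only [map_zero, sub_zero, mul_one, zero_sub] at h2
    linarith
  have h2 : ∀ y, ∑ s, w (Sum.inl s) * dotL (v s) y = c * dotL d y := by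
    intro y
    have h3 := hf' y 0
    simp only [zero_sub, mul_zero, sub_zero, mul_neg, Finset.sum_neg_distrib] at h3
    linarith
  have h3 : ∀ k, ∑ s, w (Sum.inl s) * v s k = c * d k := by
    intro k
    have h4 := h2 (Pi.single k 1)
    simpa only [dotL_single] using h4
  have hc0 : 0 ≤ c := by
    have h4 := h3 ⟨0, hN⟩
    have h5 : 0 ≤ ∑ s, w (Sum.inl s) * v s ⟨0, hN⟩ :=
      Finset.sum_nonneg fun s _ => mul_nonneg (hw _) (hv _ _)
    rw [h4] at h5
    exact nonneg_of_mul_nonneg_left h5 (hd _)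
  have hcpos : 0 < c := by
    rcases hc0.lt_or_eq with h | h
    · exact h
    exfalso
    have h4 : ∀ s, w (Sum.inl s) = 0 := by
      intro s
      obtain ⟨k, hk⟩ : ∃ k, v s k ≠ 0 := by
        by_contra hcon
        push Not at hcon
        exact hv0 s (funext hcon)
      have h5 := h3 k
      rw [← h, zero_mul] at h5
      have h6 := (Finset.sum_eq_zero_iff_of_nonneg fun s _ => mul_nonneg (hw _) (hv _ _)).1 h5 s
        (Finset.mem_univ s)
      exact (mul_eq_zero.1 h6).resolve_right hk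
    rw [Finset.sum_congr rfl fun s _ => by rw [h4 s, zero_mul], ← h] at h1
    simp at h1
  have hW : 0 ≤ ∑ s, w (Sum.inl s) := Finset.sum_nonneg fun s _ => hw _
  refine ⟨(∑ s, w (Sum.inl s) * b s) / c, (∑ s, w (Sum.inl s)) / c, ?_, div_nonneg hW hcpos.le,
    fun y M C hM => ?_⟩
  · rw [lt_div_iff₀ hcpos]
    linarith
  · rw [div_mul_eq_mul_div, div_mul_eq_mul_div, ← sub_div, div_le_iff₀ hcpos, mul_comm (dotL d y),
      ← h2, Finset.sum_mul, Finset.sum_mul, ← Finset.sum_sub_distrib]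
    refine Finset.sum_le_sum fun s _ => ?_
    have h4 := mul_le_mul_of_nonneg_left (hM s) (hw (Sum.inl s))
    linarith

/-- **The implicit equations.** -/
theorem lpb_face (hd : ∀ k, 0 < d k) (hb : ∀ s, 0 ≤ b s)
    (hv : ∀ y : Fin N → ℚ, (∀ s, 0 ≤ dotL (v s) y) → ∀ k, 0 ≤ y k)
    {u : Fin N → ℚ} {β : ℚ} (hu : ∀ y ∈ Polb d κ v b, dotL u y = β) :
    ∃ A0 : ℚ, 0 ≤ A0 ∧ ∀ (y : Fin N → ℚ) (m c B : ℚ), 0 ≤ m → 0 ≤ c → 0 ≤ B →
      (∀ s, b s * m - c ≤ dotL (v s) y) → |dotL d y - κ * m| ≤ B →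
        dotL u y ≤ β * m + A0 * (c + B) := by
  classical
  let l : ι ⊕ (Bool ⊕ Unit) → ((Fin N → ℚ) × ℚ) →ₗ[ℚ] ℚ := Sum.elim
    (fun s => b s • LinearMap.snd ℚ _ _ - (dotL (v s)).comp (LinearMap.fst ℚ _ _))
    (Sum.elim (fun b => (if b then (1 : ℚ) else -1) • ((dotL d).comp (LinearMap.fst ℚ _ _) -
      κ • LinearMap.snd ℚ _ _)) fun _ => - LinearMap.snd ℚ _ _)
  obtain ⟨w, hw, hf⟩ := farkas_fin l
    ((dotL u).comp (LinearMap.fst ℚ _ _) - β • LinearMap.snd ℚ (Fin N → ℚ) ℚ) (by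
    rintro ⟨y, t⟩ hyt
    have h1 : ∀ s, b s * t - dotL (v s) y ≤ 0 := fun s => hyt (Sum.inl s)
    have h2 := hyt (Sum.inr (Sum.inl true))
    have h3 := hyt (Sum.inr (Sum.inl false))
    have h4 : - t ≤ 0 := hyt (Sum.inr (Sum.inr ()))
    simp only [l, Sum.elim_inr, Sum.elim_inl, if_true, LinearMap.smul_apply, LinearMap.sub_apply,
      LinearMap.comp_apply, LinearMap.fst_apply, LinearMap.snd_apply, smul_eq_mul] at h2 h3
    have h5 : dotL d y = κ * t := by
      simp at h3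
      linarith
    change dotL u y - β * t ≤ 0
    have h0t : 0 ≤ t := by linarith
    rcases h0t.lt_or_eq with ht | ht
    · have h6 := hu _ (scale_polb ht h5 fun s => by linarith [h1 s])
      rw [map_smul, smul_eq_mul] at h6
      have h7 : dotL u y = β * t := by
        field_simp at h6
        linarith
      linarith
    · have h6 : ∀ k, 0 ≤ y k := hv y fun s => by
        have := mul_nonneg (hb s) h0t
        linarith [h1 s]
      rw [← ht, mul_zero, dotL_apply] at h5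
      have h7 := (Finset.sum_eq_zero_iff_of_nonneg fun k _ => mul_nonneg (hd k).le (h6 k)).1 h5
      have h8 : y = 0 := by
        funext k
        exact (mul_eq_zero.1 (h7 k (Finset.mem_univ k))).resolve_left (hd k).ne'
      rw [h8, map_zero, ← ht]
      simp)
  obtain ⟨c1, hc1⟩ : ∃ c1, c1 = w (Sum.inr (Sum.inl true)) - w (Sum.inr (Sum.inl false)) := ⟨_, rfl⟩
  refine ⟨∑ s, w (Sum.inl s) + |c1|, add_nonneg (Finset.sum_nonneg fun s _ => hw _) (abs_nonneg _),
    fun y m c B hm hc hB h1 h2 => ?_⟩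
  have h3 := hf (y, m)
  rw [Fintype.sum_sum_type, Fintype.sum_sum_type, Fintype.sum_bool] at h3
  simp only [l, Sum.elim_inr, Sum.elim_inl, if_true, LinearMap.smul_apply, LinearMap.sub_apply,
    LinearMap.comp_apply, LinearMap.fst_apply, LinearMap.snd_apply, smul_eq_mul,
    LinearMap.neg_apply, Finset.univ_unique, Finset.sum_singleton] at h3
  have h4 : ∑ s, w (Sum.inl s) * (b s * m - dotL (v s) y) ≤ (∑ s, w (Sum.inl s)) * c := by
    rw [Finset.sum_mul]
    exact Finset.sum_le_sum fun s _ => mul_le_mul_of_nonneg_left (by linarith [h1 s]) (hw _)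
  have h5 : c1 * (dotL d y - κ * m) ≤ |c1| * B := by
    calc c1 * (dotL d y - κ * m) ≤ |c1 * (dotL d y - κ * m)| := le_abs_self _
      _ = |c1| * |dotL d y - κ * m| := abs_mul _ _
      _ ≤ |c1| * B := mul_le_mul_of_nonneg_left h2 (abs_nonneg _)
  have h6 : 0 ≤ w (Sum.inr (Sum.inr ())) * m := mul_nonneg (hw _) hm
  have h7 : 0 ≤ (∑ s, w (Sum.inl s)) * B := mul_nonneg (Finset.sum_nonneg fun s _ => hw _) hB
  have h8 : 0 ≤ |c1| * c := mul_nonneg (abs_nonneg _) hc
  have h9 : dotL u y - β * m = ∑ s, w (Sum.inl s) * (b s * m - dotL (v s) y) +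
      c1 * (dotL d y - κ * m) - w (Sum.inr (Sum.inr ())) * m := by
    rw [h3, hc1]
    simp
    ring
  nlinarith

/-- a point in the relative interior -/
theorem exists_relintb (hne : (Polb d κ v b).Nonempty) :
    ∃ y0 ∈ Polb d κ v b, ∀ s, dotL (v s) y0 = b s → ∀ y ∈ Polb d κ v b, dotL (v s) y = b s := by
  classical
  have key : ∀ F : Finset ι, ∃ y0 ∈ Polb d κ v b, ∀ s ∈ F, dotL (v s) y0 = b s →
      ∀ y ∈ Polb d κ v b, dotL (v s) y = b s := by
    intro F
    induction F using Finset.induction_on with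
    | empty =>
      obtain ⟨y0, hy0⟩ := hne
      exact ⟨y0, hy0, by simp⟩
    | insert s F hs ih =>
      obtain ⟨y0, hy0, h0⟩ := ih
      by_cases hall : ∀ y ∈ Polb d κ v b, dotL (v s) y = b s
      · refine ⟨y0, hy0, fun t ht _ => ?_⟩
        rcases Finset.mem_insert.1 ht with rfl | ht
        · exact hall
        · exact h0 t ht (by assumption)
      · push Not at hall
        obtain ⟨y1, hy1, hne1⟩ := hall
        have h1 : ∀ t, dotL (v t) ((1 / 2 : ℚ) • (y0 + y1)) =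
            (dotL (v t) y0 + dotL (v t) y1) / 2 := by
          intro t
          rw [map_smul, map_add, smul_eq_mul]
          ring
        refine ⟨(1 / 2 : ℚ) • (y0 + y1), ⟨?_, fun t => ?_⟩, fun t ht ht1 => ?_⟩
        · rw [map_smul, map_add, hy0.1, hy1.1, smul_eq_mul]
          ring
        · rw [h1]
          have := hy0.2 t
          have := hy1.2 t
          linarith
        · rw [h1] at ht1
          have h2 := hy0.2 t
          have h3 := hy1.2 t
          rcases Finset.mem_insert.1 ht with rfl | ht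
          · exact absurd (by linarith : dotL (v t) y1 = b t) hne1
          · exact h0 t ht (by linarith)
  obtain ⟨y0, hy0, h0⟩ := key Finset.univ
  exact ⟨y0, hy0, fun s => h0 s (Finset.mem_univ s)⟩

/-- the direction space -/
theorem smallb {y0 z : Fin N → ℚ} (hy0 : y0 ∈ Polb d κ v b)
    (h0 : ∀ s, dotL (v s) y0 = b s → ∀ y ∈ Polb d κ v b, dotL (v s) y = b s)
    (hz0 : dotL d z = 0) (hz : ∀ s, (∀ y ∈ Polb d κ v b, dotL (v s) y = b s) → dotL (v s) z = 0) :
    ∃ ε : ℚ, 0 < ε ∧ y0 + ε • z ∈ Polb d κ v b := by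
  classical
  have key : ∀ F : Finset ι, ∃ δ : ℚ, 0 < δ ∧ ∀ s ∈ F, ∀ ε : ℚ, 0 ≤ ε → ε ≤ δ →
      b s ≤ dotL (v s) (y0 + ε • z) := by
    intro F
    induction F using Finset.induction_on with
    | empty => exact ⟨1, one_pos, by simp⟩
    | insert s F hs ih =>
      obtain ⟨δ, hδ, h1⟩ := ih
      by_cases h2 : dotL (v s) y0 = b s
      · refine ⟨δ, hδ, fun t ht ε hε hεδ => ?_⟩
        rcases Finset.mem_insert.1 ht with rfl | ht
        · rw [map_add, map_smul, hz t (h0 t h2), h2]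
          simp
        · exact h1 t ht ε hε hεδ
      · have h3 : 0 < dotL (v s) y0 - b s := by
          have h4 := hy0.2 s
          rcases h4.lt_or_eq with h | h
          · linarith
          · exact absurd h.symm h2
        have h4 : 0 < (dotL (v s) y0 - b s) / (1 + |dotL (v s) z|) := by positivity
        refine ⟨min δ ((dotL (v s) y0 - b s) / (1 + |dotL (v s) z|)), lt_min hδ h4,
          fun t ht ε hε hεδ => ?_⟩
        rcases Finset.mem_insert.1 ht with rfl | ht
        · have h5 := hεδ.trans (min_le_right _ _)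
          rw [le_div_iff₀ (by positivity)] at h5
          rw [map_add, map_smul, smul_eq_mul]
          have h6 : -|dotL (v t) z| ≤ dotL (v t) z := neg_abs_le _
          have h7 : ε * (-|dotL (v t) z|) ≤ ε * dotL (v t) z := mul_le_mul_of_nonneg_left h6 hε
          linarith
        · exact h1 t ht ε hε (hεδ.trans (min_le_left _ _))
  obtain ⟨δ, hδ, h1⟩ := key Finset.univ
  refine ⟨δ, hδ, ?_, fun s => h1 s (Finset.mem_univ s) δ hδ.le le_rfl⟩
  rw [map_add, map_smul, hz0, hy0.1, smul_zero, add_zero]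

/-- the direction space -/
def dirSb (d : Fin N → ℚ) (κ : ℚ) (v : ι → Fin N → ℚ) (b : ι → ℚ) :
    Submodule ℚ (Fin N → ℚ) where
  carrier := {z | dotL d z = 0 ∧
    ∀ s, (∀ y ∈ Polb d κ v b, dotL (v s) y = b s) → dotL (v s) z = 0}
  add_mem' := by
    rintro a b ⟨ha, ha'⟩ ⟨hb, hb'⟩
    refine ⟨by rw [map_add, ha, hb, add_zero], fun s hs => ?_⟩
    rw [map_add, ha' s hs, hb' s hs, add_zero]
  zero_mem' := ⟨map_zero _, fun s _ => map_zero _⟩
  smul_mem' := by
    rintro c a ⟨ha, ha'⟩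
    refine ⟨by rw [map_smul, ha, smul_zero], fun s hs => ?_⟩
    rw [map_smul, ha' s hs, smul_zero]

theorem vectorSpan_eqb (hne : (Polb d κ v b).Nonempty) :
    vectorSpan ℚ (Polb d κ v b) = dirSb d κ v b := by
  apply le_antisymm
  · rw [vectorSpan_def, Submodule.span_le]
    rintro z ⟨y, hy, y', hy', rfl⟩
    refine ⟨?_, fun s hs => ?_⟩
    · dsimp only [vsub_eq_sub]
      rw [map_sub, hy.1, hy'.1, sub_self]
    · dsimp only [vsub_eq_sub]
      rw [map_sub, hs y hy, hs y' hy', sub_self]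
  · rintro z ⟨hz0, hz⟩
    obtain ⟨y0, hy0, h0⟩ := exists_relintb hne
    obtain ⟨ε, hε, h1⟩ := smallb hy0 h0 hz0 hz
    have h2 : ε • z ∈ vectorSpan ℚ (Polb d κ v b) := by
      have h3 := vsub_mem_vectorSpan ℚ h1 hy0
      simpa using h3
    have h3 := Submodule.smul_mem _ ε⁻¹ h2
    rwa [smul_smul, inv_mul_cancel₀ hε.ne', one_smul] at h3

/-- independent points -/
theorem exists_pointsb (hne : (Polb d κ v b).Nonempty) {h : ℕ}
    (hh : Module.finrank ℚ (vectorSpan ℚ (Polb d κ v b)) = h) :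
    ∃ (y0 : Fin N → ℚ) (y : Fin h → Fin N → ℚ), y0 ∈ Polb d κ v b ∧ (∀ i, y i ∈ Polb d κ v b) ∧
      LinearIndependent ℚ fun i => y i - y0 := by
  rw [vectorSpan_eqb hne] at hh
  obtain ⟨y0, hy0, h0⟩ := exists_relintb hne
  let B := Module.finBasisOfFinrankEq ℚ (dirSb d κ v b) hh
  have h1 : ∀ i, ∃ ε : ℚ, 0 < ε ∧ y0 + ε • (B i : Fin N → ℚ) ∈ Polb d κ v b := fun i =>
    smallb hy0 h0 (B i).2.1 (B i).2.2
  choose ε hε h1 using h1
  refine ⟨y0, fun i => y0 + ε i • (B i : Fin N → ℚ), hy0, h1, ?_⟩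
  have h2 : (fun i => y0 + ε i • (B i : Fin N → ℚ) - y0) =
      (fun i => (Units.mk0 (ε i) (hε i).ne') • (B i : Fin N → ℚ)) := by
    funext i
    rw [add_sub_cancel_left]
    rfl
  rw [h2]
  have h3 : LinearIndependent ℚ fun i => (B i : Fin N → ℚ) :=
    B.linearIndependent.map' (dirSb d κ v b).subtype (Submodule.ker_subtype _)
  exact h3.units_smul _

/-- counting -/
theorem countb {α I : Type} [Fintype I] [DecidableEq I] {J : Type} [Fintype J] [DecidableEq J]
    (S : Finset α) (φ : α → I → ℤ) (ψ : α → J → ℤ) (lo : I → ℤ) (C1 B : ℕ) {m : ℕ} (hm : 1 ≤ m)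
    (hφ : ∀ a ∈ S, ∀ i, lo i ≤ φ a i ∧ φ a i ≤ lo i + C1)
    (hψ : ∀ a ∈ S, ∀ j, -(B : ℤ) ≤ ψ a j ∧ ψ a j ≤ B * m)
    (hinj : ∀ a ∈ S, ∀ b ∈ S, φ a = φ b → ψ a = ψ b → a = b) :
    S.card ≤ (C1 + 1) ^ Fintype.card I * (2 * B + 1) ^ Fintype.card J * m ^ Fintype.card J := by
  classical
  refine count S (fun a i => φ a i - lo i) ψ 0 C1 B hm (fun a ha i => ?_) hψ
    fun a ha b hb h1 h2 => hinj a ha b hb ?_ h2
  · have h1 := hφ a ha i
    constructor <;> linarith
  · funext i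
    have h3 := congrFun h1 i
    linarith

end

end Pool.Agent.Q57.TP
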