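import Pool.Agent.Y169.TH.Pcs
import Pool.Agent.Y169.CH.Top

/-!
The order of the sections of `m (K + Δ)` at the three kinds of places
(following `Pool.Agent.Y169.TH.Pcs`, where `Δ = 0`).
-/

set_option autoImplicit false
set_option linter.overlappingInstances false
set_option linter.unusedSectionVars false
set_option maxHeartbeats 400000

open FF MvPolynomial IntermediateField Pool.Agent.W603.LV Pool.Agent.W619.PQ
open Pool.Agent.W619.TW Pool.Agent.W602.GT Pool.Agent.TH122.AB Pool.Agent.TH756.PN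
open Pool.Agent.Y169.CH Pool.Agent.W602.Cov.G Pool.Agent.Y169.TH

namespace Pool.Agent.Q57.TP

section

variable {k : Type} [Field k] [CharZero k] {K : Type} [Field K] [Algebra k K] {n : ℕ}

/-- The order on logarithmic vector fields is at least `m (1 - δ)`. -/
theorem jacLd (htr : Algebra.trdeg k K = n)
    (hfd : ∀ y : Fin n → K, IsTranscendenceBasis k y →
      FiniteDimensional (IntermediateField.adjoin k (Set.range y)) K)
    {w : Place k K} (hw : IsDivisorial w n) (dd : Fin n → Derivation k K K)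
    (hlog : ∀ b, ∀ z : K, w.Reg (dd b z / z)) (S : Finset K) (m : ℕ) (δ : Place k K → ℝ)
    (ω : (Fin n → Derivation k K K) → K) (hω : SecP n Set.univ δ S m ω) :
    ω dd = 0 ∨ ∃ s ∈ S, s ≠ 0 ∧ (w.ord s : ℝ) + m * (1 - δ w) ≤ w.ord (ω dd) := by
  classical
  obtain ⟨y, E', i0, hy, hE'y, hi0, hyreg, hEpres⟩ := Pool.Agent.W619.Y.pFRAME k K n htr hfd w hw
  let M : Matrix (Fin n) (Fin n) K := Matrix.of fun b c => dd b (y c)
  have hddE : dd = fun b => ∑ c, M b c • E' c := by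
    funext b
    apply der_ext' hy
    intro j
    rw [sum_der, Finset.sum_eq_single j]
    · rw [hE'y, if_pos rfl, mul_one]
      rfl
    · intro c _ hc
      rw [hE'y, if_neg hc, mul_zero]
    · intro hj
      exact absurd (Finset.mem_univ _) hj
  have hy0 : ∀ c, y c ≠ 0 := by
    intro c h0
    have h1 := hE'y c c
    rw [h0, map_zero, if_pos rfl] at h1
    exact zero_ne_one h1
  have hge : Ge w 1 M.det := by
    have h1 : M.det = (∏ c, y c) * (Matrix.of fun b c => dd b (y c) / y c).det := by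
      rw [← Matrix.det_mul_row]
      congr 1
      ext b c
      simp only [M, Matrix.of_apply]
      rw [mul_div_cancel₀ _ (hy0 c)]
    rw [h1]
    have h2 : Ge w 0 (Matrix.of fun b c => dd b (y c) / y c).det :=
      Pool.Agent.W619.PQ.ge_det w _ fun b c => hlog b (y c)
    have h3 : Ge w 1 (∏ c, y c) := by
      rw [← Finset.mul_prod_erase Finset.univ y (Finset.mem_univ i0)]
      have h4 : Ge w 0 (∏ c ∈ Finset.univ.erase i0, y c) := by
        refine Finset.prod_induction _ (fun z => Ge w 0 z) (fun a b ha hb => ?_) Ge.one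
          fun c _ => hyreg c
        simpa using ha.mul hb
      have h5 : Ge w 1 (y i0) := Or.inr hi0.ge
      simpa using h5.mul h4
    simpa using h3.mul h2
  have hpl := hω.1 M E'
  rw [← hddE] at hpl
  have hsec := hω.2 w (Set.mem_univ _) hw E' hEpres
  by_cases h0 : ω dd = 0
  · exact Or.inl h0
  right
  rw [hpl] at h0
  have hM0 : M.det ^ m ≠ 0 := left_ne_zero_of_mul h0
  have h1 : ω E' ≠ 0 := right_ne_zero_of_mul h0
  obtain ⟨s, hs, hs0, hle⟩ := hsec.resolve_left h1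
  refine ⟨s, hs, hs0, ?_⟩
  rw [hpl, w.ord_mul hM0 h1, w.ord_pow]
  by_cases hm : m = 0
  · subst hm
    push_cast at hle ⊢
    linarith
  have h3 : 1 ≤ w.ord M.det := hge.resolve_left fun h => hM0 (by rw [h, zero_pow hm])
  have h4 : (m : ℤ) * 1 ≤ m * w.ord M.det := mul_le_mul_of_nonneg_left h3 (by positivity)
  have h5 : (m : ℝ) * 1 ≤ m * w.ord M.det := by exact_mod_cast h4
  push_cast
  linarith

end

variable {d : ℕ} {Φ : Arr (d + 1)} {K : Type} [Field K] [Algebra ℂ K] {R : ℕ}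

/-- the coefficients of the divisor -/
structure Coef (C : Cv Φ K R) (c : (Fin (d + 2) → ℕ) → ℚ) (δ : Place ℂ K → ℚ) : Prop where
  h0 : c 0 = 0
  le : ∀ v, c v ≤ 1
  hδ : ∀ P α v, Dat P Φ.F Φ.dF C.x α v → δ P = c v

/-- a section of `m (K + Δ) + A` -/
def SecD (N : ℕ) (δ : Place ℂ K → ℚ) (S : Finset K) (m : ℕ)
    (ω : (Fin N → Derivation ℂ K K) → K) : Prop := SecP N Set.univ (fun P => (δ P : ℝ)) S m ω

section

variable (C : Cv Φ K R) {c : (Fin (d + 2) → ℕ) → ℚ} {δ : Place ℂ K → ℚ}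

section

variable {K0 : Type} [Field K0] [Algebra ℂ K0] [Algebra K0 K] [IsScalarTower ℂ K0 K]
  [FiniteDimensional K0 K]

/-- the multiplicities at the places of the irreducible polynomials -/
theorem dat_adic {X : Fin (d + 1) → K0}
    (hXu : ∀ j, algebraMap K0 K (X j) = C.u j) {p : MvPolynomial (Fin (d + 1)) ℂ}
    {v : Place ℂ K0}
    (hv : ∀ P, P ≠ 0 → 0 ≤ v.ord (aeval X P) ∧ (v.ord (aeval X P) = 0 ↔ ¬ p ∣ P))
    {P : Place ℂ K} {e : ℕ} (h : Over P v e) (ht : ∀ t, ¬ p ∣ deh (Φ.F t)) :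
    Dat P Φ.F Φ.dF C.x 0 0 := by
  refine ⟨C.x_ne, fun l => ?_, ⟨0, by rw [C.hx0, P.ord_one]⟩, C.F_ne, fun k => ?_⟩
  · refine Fin.cases ?_ (fun b => ?_) l
    · rw [C.hx0, P.ord_one]
    · have h1 : C.x b.succ = algebraMap K0 K (aeval X (MvPolynomial.X b : MvPolynomial (Fin (d + 1)) ℂ)) := by
        rw [aeval_X, hXu]
        rfl
      rw [h1, h.2]
      exact mul_nonneg (by positivity) (hv _ (X_ne_zero _)).1
  · rw [← C.ae_deh, C.ae_K0 hXu, h.2, (hv _ (Cv.deh_F_ne k)).2.2 (ht k)]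
    simp

/-- the places of the irreducible polynomials -/
theorem adic_d (hc : Coef C c δ) {X : Fin (d + 1) → K0} (hX : Gens (k := ℂ) X)
    (hXu : ∀ j, algebraMap K0 K (X j) = C.u j) {D : Fin (d + 1) → Derivation ℂ K K}
    (hD : ∀ i j, D i (C.u j) = if i = j then 1 else 0) {p : MvPolynomial (Fin (d + 1)) ℂ}
    (hp : Irreducible p) {v : Place ℂ K0} (hvp : v.ord (aeval X p) = 1)
    (hv : ∀ P, P ≠ 0 → 0 ≤ v.ord (aeval X P) ∧ (v.ord (aeval X P) = 0 ↔ ¬ p ∣ P))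
    {P : Place ℂ K} {e : ℕ} (h : Over P v e) (he : e = 1 ∨ ∃ t, p ∣ deh (Φ.F t)) {S' : Finset K}
    {m : ℕ} {ω : (Fin (d + 1) → Derivation ℂ K K) → K} (hω : SecD (d + 1) δ S' m ω) :
    ω D * C.Lam m = 0 ∨ ∃ s ∈ S', s ≠ 0 ∧ P.ord s ≤ P.ord (ω D * C.Lam m) := by
  classical
  have htr := trdeg_of_basis C.u_bas
  have hXK : (fun j => algebraMap K0 K (X j)) = C.u := funext hXu
  have hD' : ∀ i j, D i (algebraMap K0 K (X j)) = if i = j then 1 else 0 := fun i j => by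
    rw [hXu]
    exact hD i j
  obtain ⟨b, hb0, hb⟩ := exists_pderiv hp
  have hDb : D b (algebraMap K0 K (aeval X p)) = algebraMap K0 K (aeval X (pderiv b p)) := by
    rw [← Pool.Agent.TH122.AB.aeval_coe, ← Pool.Agent.TH122.AB.aeval_coe]
    exact der_aeval (hD' b) p
  have hjac := jacP htr C.fin_all' h (div_adic hX hp hv h) D C.u C.u_bas hD
    (fun i z hz => pres_adic hX hp hv h (hD' i) hz) hvp b (by
      rw [hDb, Ne, map_eq_zero]
      exact hX.ne hb0) (by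
      rw [hDb, h.2, (hv _ hb0).2.2 hb, mul_zero]) S' m ω Set.univ (fun P => (δ P : ℝ))
        (Set.mem_univ _) hω
  by_cases hz : ω D = 0
  · left
    rw [hz, zero_mul]
  obtain ⟨s, hs, hs0, hle⟩ := hjac.resolve_left hz
  right
  refine ⟨s, hs, hs0, ?_⟩
  rw [P.ord_mul hz (C.Lam_ne m), C.ord_Lam]
  have hF : ∀ t, P.ord (aeval C.x (Φ.F t)) = e * v.ord (aeval X (deh (Φ.F t))) := by
    intro t
    rw [← C.ae_deh, C.ae_K0 hXu, h.2]
  have hnn : ∀ t, 0 ≤ P.ord (aeval C.x (Φ.F t)) := by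
    intro t
    rw [hF]
    exact mul_nonneg (by positivity) (hv _ (Cv.deh_F_ne t)).1
  have he1 : (1 : ℤ) ≤ e := by exact_mod_cast h.1
  have key : ((e : ℝ) - 1 + δ P) ≤ ((∑ t, P.ord (aeval C.x (Φ.F t)) : ℤ) : ℝ) := by
    by_cases hex : ∃ t, p ∣ deh (Φ.F t)
    · obtain ⟨t, ht⟩ := hex
      have h2 : P.ord (aeval C.x (Φ.F t)) ≤ ∑ t, P.ord (aeval C.x (Φ.F t)) :=
        Finset.single_le_sum (f := fun t => P.ord (aeval C.x (Φ.F t))) (fun t _ => hnn t)
          (Finset.mem_univ t)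
      have h3 : 1 ≤ v.ord (aeval X (deh (Φ.F t))) := by
        have h4 : v.ord (aeval X (deh (Φ.F t))) ≠ 0 := fun h5 => (hv _ (Cv.deh_F_ne t)).2.1 h5 ht
        have h5 := (hv _ (Cv.deh_F_ne (Φ := Φ) t)).1
        omega
      rw [hF] at h2
      have h4 : (e : ℤ) ≤ ∑ t, P.ord (aeval C.x (Φ.F t)) := by nlinarith
      have h5 : (e : ℝ) ≤ ((∑ t, P.ord (aeval C.x (Φ.F t)) : ℤ) : ℝ) := by exact_mod_cast h4
      obtain ⟨α, vv, -, hdat⟩ := C.exists_dat P
      have h6 : δ P ≤ 1 := by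
        rw [hc.hδ P α vv hdat]
        exact hc.le vv
      have h7 : (δ P : ℝ) ≤ 1 := by exact_mod_cast h6
      linarith
    · have he' : e = 1 := he.resolve_right hex
      push Not at hex
      have h6 : δ P = 0 := by
        rw [hc.hδ P 0 0 (dat_adic C hXu hv h hex)]
        exact hc.h0
      rw [h6, he']
      have h7 : (0 : ℤ) ≤ ∑ t, P.ord (aeval C.x (Φ.F t)) := Finset.sum_nonneg fun t _ => hnn t
      have h8 : (0 : ℝ) ≤ ((∑ t, P.ord (aeval C.x (Φ.F t)) : ℤ) : ℝ) := by exact_mod_cast h7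
      push_cast at h8 ⊢
      linarith
  have h4 := mul_le_mul_of_nonneg_left key (show (0 : ℝ) ≤ m by positivity)
  have h5 : (P.ord s : ℝ) ≤ ((P.ord (ω D) + m * ∑ t, P.ord (aeval C.x (Φ.F t)) : ℤ) : ℝ) := by
    push_cast at h4 ⊢
    linarith
  exact_mod_cast h5

/-- the place at infinity -/
theorem inf_d (hc : Coef C c δ) {X : Fin (d + 1) → K0} (hX : Gens (k := ℂ) X)
    (hXu : ∀ j, algebraMap K0 K (X j) = C.u j) {D : Fin (d + 1) → Derivation ℂ K K}
    (hD : ∀ i j, D i (C.u j) = if i = j then 1 else 0) :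
    ∃ v0 : Place ℂ K0, (∀ P : MvPolynomial (Fin (d + 1)) ℂ, P ≠ 0 →
        v0.ord (aeval X P) = - (degB Finset.univ P : ℤ)) ∧
      ∀ (P : Place ℂ K), Over P v0 1 → ∀ (S' : Finset K) (m : ℕ)
        (ω : (Fin (d + 1) → Derivation ℂ K K) → K), SecD (d + 1) δ S' m ω →
        ω D * C.Lam m = 0 ∨ ∃ s ∈ S', s ≠ 0 ∧ P.ord s ≤
          P.ord (ω D * C.Lam m) + (∑ k, (Φ.dF k : ℤ) - (d + 2)) * m := by
  classical
  have hXK : (fun j => algebraMap K0 K (X j)) = C.u := funext hXu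
  obtain ⟨v0, h1, h2⟩ := exists_infP hX (by rw [hXK]; exact C.u_bas) C.fin_all' (D := D)
    (fun i j => by rw [hXu]; exact hD i j) (B := Finset.univ) (c := 0) (Finset.mem_univ _)
  refine ⟨v0, h1, fun P hP S' m ω hω => ?_⟩
  have h3 := h2 P 1 hP S' m ω Set.univ (fun P => (δ P : ℝ)) (Set.mem_univ _) hω
  have hu : ∀ b, P.ord (C.u b) = -1 := by
    intro b
    have h4 : C.u b = algebraMap K0 K (aeval X (MvPolynomial.X b : MvPolynomial (Fin (d + 1)) ℂ)) := by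
      rw [aeval_X, hXu]
    rw [h4, hP.2, h1 _ (X_ne_zero _)]
    have h5 : degB Finset.univ (MvPolynomial.X b : MvPolynomial (Fin (d + 1)) ℂ) = 1 := by
      unfold degB
      rw [support_X, Finset.sup_singleton, Finset.sum_eq_single b]
      · simp
      · intro b' _ hb
        rw [Finsupp.single_apply, if_neg (Ne.symm hb)]
      · intro h
        exact absurd (Finset.mem_univ _) h
    rw [h5]
    simp
  have h4' : ∀ s, P.ord (aeval C.x (Φ.F s)) = - (Φ.dF s : ℤ) := by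
    intro s
    rw [← C.ae_deh, C.ae_K0 hXu, hP.2, h1 _ (Cv.deh_F_ne s), degB_deh (Φ.hh s) (Φ.hI s)]
    simp
  have hδ0 : δ P = 0 := by
    have hdat : Dat P Φ.F Φ.dF C.x (-1) 0 := by
      refine ⟨C.x_ne, fun l => ?_, ⟨(0 : Fin (d + 1)).succ, hu 0⟩, C.F_ne, fun k => ?_⟩
      · refine Fin.cases ?_ (fun b => ?_) l
        · rw [C.hx0, P.ord_one]
          norm_num
        · exact (hu b).ge
      · rw [h4']
        simp
    rw [hc.hδ P _ _ hdat]
    exact hc.h0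
  by_cases hz : ω D = 0
  · left
    rw [hz, zero_mul]
  obtain ⟨s, hs, hs0, hle⟩ := h3.resolve_left hz
  right
  refine ⟨s, hs, hs0, ?_⟩
  have hle' : P.ord s ≤ P.ord (ω D) - m * ((d : ℤ) + 2) := by
    have h4 : (P.ord s : ℝ) ≤ P.ord (ω D) - m * ((d : ℝ) + 2) := by
      rw [Finset.card_univ, Fintype.card_fin, hδ0] at hle
      push_cast at hle
      linarith
    exact_mod_cast h4
  rw [P.ord_mul hz (C.Lam_ne m), C.ord_Lam]
  rw [Finset.sum_congr rfl fun s _ => h4' s, Finset.sum_neg_distrib]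
  linarith

/-- the test places -/
theorem test_d (hc : Coef C c δ) {Y : Fin (d + 1) → K0} (hY : Gens (k := ℂ) Y)
    (hYK : ∀ j, algebraMap K0 K (Y j) = C.Y j) {D : Fin (d + 1) → Derivation ℂ K K}
    (hD : ∀ i j, D i (C.u j) = if i = j then 1 else 0) {DY : Fin (d + 1) → Derivation ℂ K K}
    (hDY : ∀ i j, DY i (C.Y j) = if i = j then 1 else 0) (lam : Fin (d + 1) → ℤ)
    {b0 : Fin (d + 1)} (hb0 : lam b0 ≠ 0) {v : Place ℂ K0}
    (hv : ∀ P : MvPolynomial (Fin (d + 1)) ℂ, P ≠ 0 → v.ord (aeval Y P) = zord lam P)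
    {P : Place ℂ K} {e : ℕ} (h : Over P v e) {α : ℤ} {vv : Fin (d + 2) → ℕ}
    (hdat : Dat P Φ.F Φ.dF C.x α vv) (hα : α ≤ 0) {S' : Finset K} {m : ℕ}
    {ω : (Fin (d + 1) → Derivation ℂ K K) → K} (hω : SecD (d + 1) δ S' m ω) {q : ℕ}
    (hq : (∑ k, (Φ.dF k : ℤ) - (d + 2)) * m ≤ Φ.E * q) :
    ω D * C.Lam m / aeval C.x (Φ.G 0) ^ q = 0 ∨ ∃ s ∈ S', s ≠ 0 ∧
      (P.ord s : ℚ) + m * (1 - c vv) - q * (Φ.ee 0 * vv 0) ≤
        P.ord (ω D * C.Lam m / aeval C.x (Φ.G 0) ^ q) := by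
  classical
  have htr := trdeg_of_basis C.u_bas
  have hdiv : IsDivisorial P (d + 1) := div_zmono hY lam hb0 hv h
  -- the logarithmic frame
  obtain ⟨dd, hdddef⟩ : ∃ dd : Fin (d + 1) → Derivation ℂ K K,
    dd = fun b => algebraMap K0 K (Y b) • DY b := ⟨_, rfl⟩
  have hlog : ∀ b z, P.Reg (dd b z / z) := fun b z => by
    rw [hdddef]
    exact log_zmono hY lam hv h (fun j => by rw [hYK]; exact hDY b j) z
  have hdd : ∀ i j, dd i (C.Y j) = if i = j then C.Y j else 0 := by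
    intro i j
    rw [hdddef]
    dsimp only
    rw [Derivation.smul_apply, hDY, smul_eq_mul, hYK]
    split_ifs with hij
    · rw [mul_one, hij]
    · rw [mul_zero]
  have hjac := jacLd htr C.fin_all' hdiv dd hlog S' m (fun P => (δ P : ℝ)) ω hω
  obtain ⟨hB, hJ, hsum, hle0⟩ := C.ord_id hdat hdd
  -- the change of frames
  let J : Matrix (Fin (d + 1)) (Fin (d + 1)) K := Matrix.of fun a b => dd a (C.u b)
  have hDJ : dd = fun a => ∑ b, J a b • D b := by
    funext a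
    apply der_ext' C.u_bas
    intro j
    rw [sum_der, Finset.sum_eq_single j]
    · rw [hD, if_pos rfl, mul_one]
      rfl
    · intro b _ hb
      rw [hD, if_neg hb, mul_zero]
    · intro hj
      exact absurd (Finset.mem_univ _) hj
  have h1 : ω dd = bw dd C.x ^ m * ω D := by
    have h2 : bw dd C.x = J.det := Pool.Agent.W930.CG.bw_one dd C.x C.hx0
    rw [h2]
    conv_lhs => rw [hDJ]
    exact hω.1 J D
  by_cases hz : ω D = 0
  · left
    rw [hz, zero_mul, zero_div]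
  have hdd0 : ω dd ≠ 0 := by
    rw [h1]
    exact mul_ne_zero (pow_ne_zero _ hB) hz
  obtain ⟨s, hs, hs0, hle⟩ := hjac.resolve_left hdd0
  right
  refine ⟨s, hs, hs0, ?_⟩
  rw [h1, P.ord_mul (pow_ne_zero _ hB) hz, P.ord_pow, hc.hδ P α vv hdat] at hle
  rw [P.ord_div (mul_ne_zero hz (C.Lam_ne m)) (pow_ne_zero _ (C.G_ne 0)),
    P.ord_mul hz (C.Lam_ne m), C.ord_Lam, P.ord_pow, C.ord_G hdat]
  have hle' : (P.ord s : ℚ) + m * (1 - c vv) ≤ ((m * P.ord (bw dd C.x) + P.ord (ω D) : ℤ) : ℚ) := by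
    have h2 : (((P.ord s : ℚ) + m * (1 - c vv) : ℚ) : ℝ) ≤
        (((m * P.ord (bw dd C.x) + P.ord (ω D) : ℤ) : ℚ) : ℝ) := by
      push_cast at hle ⊢
      exact hle
    exact_mod_cast h2
  have h2 : ∑ t, P.ord (aeval C.x (Φ.F t)) = (∑ k, (Φ.dF k : ℤ)) * α + ∑ k, (vv k : ℤ) := by
    rw [Finset.sum_mul, ← Finset.sum_add_distrib]
    exact Finset.sum_congr rfl fun k _ => hdat.hv k
  rw [h2]
  have h3 : P.ord (bw dd C.x) ≤ ((d : ℤ) + 2) * α + ∑ k, (vv k : ℤ) := by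
    push_cast at hle0
    nlinarith
  have h4 : (m : ℤ) * P.ord (bw dd C.x) ≤ m * (((d : ℤ) + 2) * α + ∑ k, (vv k : ℤ)) :=
    mul_le_mul_of_nonneg_left h3 (by positivity)
  have h5 : 0 ≤ ((Φ.E : ℤ) * q - (∑ k, (Φ.dF k : ℤ) - (d + 2)) * m) * (- α) :=
    mul_nonneg (by linarith) (by linarith)
  have h6 : (m * P.ord (bw dd C.x) + P.ord (ω D) - q * (Φ.ee 0 * vv 0) : ℤ) ≤
      P.ord (ω D) + m * ((∑ k, (Φ.dF k : ℤ)) * α + ∑ k, (vv k : ℤ)) -
        q * (Φ.E * α + Φ.ee 0 * vv 0) := by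
    nlinarith
  have h7 : ((m * P.ord (bw dd C.x) + P.ord (ω D) - q * (Φ.ee 0 * vv 0) : ℤ) : ℚ) ≤
      ((P.ord (ω D) + m * ((∑ k, (Φ.dF k : ℤ)) * α + ∑ k, (vv k : ℤ)) -
        q * (Φ.E * α + Φ.ee 0 * vv 0) : ℤ) : ℚ) := by exact_mod_cast h6
  push_cast at hle' h7 ⊢
  linarith

end

end

end Pool.Agent.Q57.TP
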